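import Pool.Agent.W251.EX.Out

/-!
Project EX (helper251): the four sign patterns of the Liouville function, for almost all scales.
-/

set_option autoImplicit false

namespace Pool.Agent.W251.EX

open Finset Filter

/-- sign and residue modulo `2` -/
lemma sgn_iff {e : ℤ} (he : e = 1 ∨ e = -1) :
    ∃ i : ℕ, ∀ m : ℕ, (-1 : ℤ) ^ m = e ↔ m ≡ i [MOD 2] := by
  rcases he with rfl | rfl
  · refine ⟨0, fun m => ?_⟩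
    rcases Nat.even_or_odd m with h | h
    · rw [h.neg_one_pow]
      simp only [true_iff]
      exact (Nat.modEq_zero_iff_dvd).2 h.two_dvd
    · rw [h.neg_one_pow]
      constructor
      · intro h2; norm_num at h2
      · intro h2
        exact absurd ((Nat.modEq_zero_iff_dvd).1 h2) h.not_two_dvd_nat
  · refine ⟨1, fun m => ?_⟩
    rcases Nat.even_or_odd m with h | h
    · rw [h.neg_one_pow]
      constructor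
      · intro h2; norm_num at h2
      · intro h2
        have h3 : m % 2 = 1 % 2 := h2
        have h4 : m % 2 = 0 := Nat.even_iff.1 h
        omega
    · rw [h.neg_one_pow]
      simp only [true_iff]
      have h4 : m % 2 = 1 := Nat.odd_iff.1 h
      show m % 2 = 1 % 2
      omega

open scoped Classical in
/-- the four sign patterns in windows, for almost all scales -/
theorem outS (e₁ e₂ : ℤ) (h₁ : e₁ = 1 ∨ e₁ = -1) (h₂ : e₂ = 1 ∨ e₂ = -1) (s₁ s₂ s₃ s₄ ε : ℝ)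
    (hs₁ : 0 ≤ s₁) (hs₁₂ : s₁ < s₂) (hs₂ : s₂ ≤ 1) (hs₃ : 0 ≤ s₃) (hs₃₄ : s₃ < s₄) (hs₄ : s₄ ≤ 1)
    (hε : 0 < ε) :
    Tendsto (fun N : ℕ => (∑ X ∈ (Icc 1 N).filter (fun X : ℕ => ε * X <
      |(((Icc 1 X ×ˢ Icc 1 X).filter (fun p : ℕ × ℕ => (∃ n : ℕ, p.1 * p.2 = n ^ 2 + 1) ∧
          (s₁ * X < p.1 ∧ p.1 ≤ s₂ * X ∧ s₃ * X < p.2 ∧ p.2 ≤ s₄ * X) ∧
          (-1 : ℤ) ^ ArithmeticFunction.cardFactors p.1 = e₁ ∧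
          (-1 : ℤ) ^ ArithmeticFunction.cardFactors p.2 = e₂)).card : ℝ) -
        1 / 4 * ((Icc 1 X ×ˢ Icc 1 X).filter (fun p : ℕ × ℕ => (∃ n : ℕ, p.1 * p.2 = n ^ 2 + 1) ∧
          (s₁ * X < p.1 ∧ p.1 ≤ s₂ * X ∧ s₃ * X < p.2 ∧ p.2 ≤ s₄ * X))).card|),
      1 / (X : ℝ)) / Real.log N) atTop (nhds 0) := by
  obtain ⟨i, hi⟩ := sgn_iff h₁
  obtain ⟨j, hj⟩ := sgn_iff h₂
  refine (outW 2 1 (by norm_num) le_rfl 0 0 i j s₁ s₂ s₃ s₄ ε hs₁ hs₁₂ hs₂ hs₃ hs₃₄ hs₄ hε).congr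
    fun N => ?_
  congr 1
  refine sum_congr ?_ fun _ _ => rfl
  refine filter_congr fun X _ => ?_
  have e : ∀ p : ℕ × ℕ, (∃ n : ℕ, p.1 * p.2 = n ^ 2 + 1 ∧ n ≡ 0 [MOD 1] ∧ p.1 ≡ 0 [MOD 1]) ↔
      ∃ n : ℕ, p.1 * p.2 = n ^ 2 + 1 := fun p =>
    ⟨fun ⟨n, h, _⟩ => ⟨n, h⟩, fun ⟨n, h⟩ => ⟨n, h, Nat.modEq_one, Nat.modEq_one⟩⟩
  have e4 : (1 : ℝ) / ((2 : ℕ) : ℝ) ^ 2 = 1 / 4 := by norm_num
  simp only [e, hi, hj, e4]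

open scoped Classical in
theorem outS' : ∃ c : ℝ, 0 < c ∧ ∃ X₀ : ℕ, ∀ X : ℕ, X₀ ≤ X →
    c * X ≤ (((Icc 1 X ×ˢ Icc 1 X).filter (fun p : ℕ × ℕ =>
      ∃ n : ℕ, p.1 * p.2 = n ^ 2 + 1)).card : ℝ) := by
  obtain ⟨c, hc, X₀, h⟩ := outP 1 0 le_rfl
  refine ⟨c, hc, X₀, fun X hX => (h X hX).trans (le_of_eq ?_)⟩
  have e : ∀ p : ℕ × ℕ, (∃ n : ℕ, p.1 * p.2 = n ^ 2 + 1 ∧ n ≡ 0 [MOD 1]) ↔
      ∃ n : ℕ, p.1 * p.2 = n ^ 2 + 1 := fun p =>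
    ⟨fun ⟨n, h, _⟩ => ⟨n, h⟩, fun ⟨n, h⟩ => ⟨n, h, Nat.modEq_one⟩⟩
  simp only [e]

end Pool.Agent.W251.EX
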