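import Pool.Agent.W78.EC.Defs2
import Pool.Agent.W78.EC.Defs4
import Pool.Agent.W251.GX.Defs
import Pool.Agent.H304R3.HK.Defs

/-!
Project EX (helper251): logarithmic averages of `b₁^Ω(d) b₂^Ω(d')` over the factorisations
`d d' = n^2+1`, with `n` and `d` in residue classes; `b₁`, `b₂` roots of unity. Definitions and
statements. Generalises project EC (helper78), whose definitions are used.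
-/

set_option autoImplicit false

namespace Pool.Agent.W251.EX

open Finset Filter
open Pool.Agent.H376R2.MR (FK)
open Pool.Agent.W78.GA (Qd nm prim dt ip lat cellM mE ps DPG ball pball edge dedge ang Ele)
open Pool.Agent.W78.EC (Gi cone cw PQ th good Rw aix G0 HCh aL SP wn Tr TT res av InG)
open Pool.Agent.W251.GX (Cm PF)
open Pool.Agent.H304R3.HK (Lg)

/-! ### Part P: mean values -/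

/-- `b^Ω(nm z)` -/
noncomputable def bO (b : ℂ) (z : Gi) : ℂ := b ^ ArithmeticFunction.cardFactors (nm z)

/-- PNTC: the prime number theorem for the characters `φ` -/
def S_PNTC : Prop := ∀ (M : ℕ) (φ : Gi → ℂ), 1 ≤ M → HCh M φ → ∃ (c : ℕ → ℂ) (δ : ℝ),
  Lg (aL φ) c ∧ (δ = 0 ∨ δ = 1) ∧ Tendsto (fun x : ℝ => (∑ n ∈ Icc 1 ⌊x⌋₊,
    (ArithmeticFunction.vonMangoldt n : ℂ) * c n) / (x : ℂ)) atTop (nhds (δ : ℂ))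

/-- the hypotheses of the abstract mean value theorem: `g` is the log-derivative of `f`, and the mean
value of `g` is `κ` with `Re κ < 1` -/
structure Ld (f g : ℕ → ℂ) (r : ℕ → ℝ) (C : ℝ) (κ : ℂ) : Prop where
  fr : ∀ n, ‖f n‖ ≤ r n
  rs : ∀ n : ℕ, ∑ k ∈ Icc 1 n, r k ≤ C * n
  gb : ∀ n, ‖g n‖ ≤ C * ArithmeticFunction.vonMangoldt n
  ld : ∀ n : ℕ, 1 ≤ n → f n * (Real.log n : ℂ) = ∑ d ∈ n.divisors, g d * f (n / d)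
  lim : Tendsto (fun x : ℝ => (∑ n ∈ Icc 1 ⌊x⌋₊, g n) / (x : ℂ)) atTop (nhds κ)
  re : κ.re < 1

/-- AMV: abstract mean value theorem -/
def S_AMV : Prop := ∀ (f g : ℕ → ℂ) (r : ℕ → ℝ) (C : ℝ) (κ : ℂ), Ld f g r C κ →
  Tendsto (fun x : ℝ => (∑ n ∈ Icc 1 ⌊x⌋₊, f n) / (x : ℂ)) atTop (nhds 0)

/-- AMV1: the logarithmic mean value is `0` -/
def S_AMV1 : Prop := ∀ (f g : ℕ → ℂ) (r : ℕ → ℝ) (C : ℝ) (κ : ℂ), Ld f g r C κ →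
  Tendsto (fun x : ℝ => (∑ n ∈ Icc 1 ⌊x⌋₊, f n / (n : ℂ)) / (Real.log x : ℂ)) atTop (nhds 0)

/-- LMX: mean values of `b^Ω` times a character -/
def S_LMX : Prop := ∀ (N : ℕ) (b : ℂ), 1 ≤ N → b ^ N = 1 → b ≠ 1 → ∀ (M : ℕ) (φ : Gi → ℂ),
  1 ≤ M → HCh M φ → ∀ ε : ℝ, 0 < ε → ∃ X₀ : ℝ, ∀ X : ℝ, X₀ ≤ X →
  ‖∑ z ∈ ball 0 1 X, bO b z * φ z‖ ≤ ε * X

/-- aperiodic completely multiplicative functions: mean value `0` on all residue classes -/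
structure Apd (N : ℕ) (F : Gi → ℂ) : Prop where
  cm : Cm N F
  mean : ∀ (M : ℕ) (r₁ r₂ : ℤ), 1 ≤ M → ∀ ε : ℝ, 0 < ε → ∃ X₀ : ℝ, ∀ X : ℝ, X₀ ≤ X →
    ‖∑ z ∈ (ball 0 1 X).filter (fun z => (M : ℤ) ∣ z.re - r₁ ∧ (M : ℤ) ∣ z.im - r₂), F z‖ ≤ ε * X

/-- PNTX: `b^Ω` is aperiodic -/
def S_PNTX : Prop := ∀ (N : ℕ) (b : ℂ), 1 ≤ N → b ^ N = 1 → b ≠ 1 → Apd N (bO b)

/-! ### Part M: Matomaki-Radziwill in residue classes -/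

section MR

variable {t c : ℤ}

/-- `∑_{z primitive} G(z) wt(log(N z/Y))/N z (z/|z|)^k` -/
noncomputable def GW (wt : ℝ → ℝ) (G : Qd t c → ℂ) (Y : ℝ) (k : ℤ) : ℂ :=
  DPG (pball t c (Real.exp 1 * Y))
    (fun z => G z * ((wt (Real.log (nm z) - Real.log Y) / nm z : ℝ) : ℂ)) k

/-- bounded functions `G` which are multiplied by `F (ϖ m)` under multiplication by `ϖ m`, and by
`b n` under multiplication by `n` -/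
structure Tx (M : ℕ → Prop) (ϖ : ℕ → Qd t c) (F : Qd t c → ℂ) (b : ℕ → ℂ) (G : Qd t c → ℂ) :
    Prop where
  bd : ∀ z, ‖G z‖ ≤ 1
  bb : ∀ n, ‖b n‖ ≤ 1
  one : b 1 = 1
  mul : ∀ (m n : ℕ) (u z : Qd t c), M m → n ∣ m → prim u → prim z →
    ϖ m * u = (n : Qd t c) * z → F (ϖ m) * G u = b n * G z

variable (t c)

/-- DECX: the decomposition, compare `W251.GX.S_DEC` and `W78.EC.S_DECW` -/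
def S_DECX : Prop := ∀ (Λ : ℝ) (wt : ℝ → ℝ), Rw Λ wt →
  ∀ (Ap Bp M : ℕ → Prop) (E : ℕ) (ρ : ℕ → ℤ) (ϖ : ℕ → Qd t c), Ele t c Ap Bp M E ρ ϖ →
  ∀ (F G : Qd t c → ℂ) (b : ℕ → ℂ), (∀ z, ‖F z‖ ≤ 1) → Tx M ϖ F b G →
  ∃ C : ℝ, 0 < C ∧ ∀ H v₀ v₁ : ℕ, 1 ≤ H → H ≤ v₀ →
    1 ≤ ∑ v ∈ Ico v₀ v₁, mE M H v → ∀ Y : ℝ, Real.exp (4 * (v₁ : ℝ) / H) ≤ Y →
    ∃ (s : Finset (Qd t c)) (f : Qd t c → ℂ), (∀ z ∈ s, prim z ∧ (nm z : ℝ) ≤ Real.exp 2 * Y) ∧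
      (∀ k : ℤ, GW wt G Y k = -(1 / ((∑ v ∈ Ico v₀ v₁, mE M H v : ℝ) : ℂ)) *
        ∑ v ∈ Ico v₀ v₁, PF F M ϖ H v k * GW wt G (Y * Real.exp (-((v : ℝ) / H))) k +
          DPG s f k) ∧
      Y * ∑ z ∈ s, ‖f z‖ ^ 2 ≤ C * (1 / (∑ v ∈ Ico v₀ v₁, mE M H v) + 1 / (H : ℝ) ^ 2)

/-- MOM0X: the mean values of `GW` -/
def S_MOM0X : Prop := ∀ (Λ : ℝ) (wt : ℝ → ℝ), Rw Λ wt → ∀ G : Qd t c → ℂ, (∀ z, ‖G z‖ ≤ 1) →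
  ∃ C : ℝ, 0 < C ∧ ∀ (K : ℕ) (Z : ℝ), 3 ≤ Z → 1 ≤ K →
    ∑ k ∈ FK K, ‖GW wt G Z k‖ ^ 2 ≤ C * (1 + (K : ℝ) / Z)

/-- MOMX: mixed moments -/
def S_MOMX : Prop := ∀ (Λ : ℝ) (wt : ℝ → ℝ), Rw Λ wt →
  ∀ (Ap Bp M : ℕ → Prop) (E : ℕ) (ρ : ℕ → ℤ) (ϖ : ℕ → Qd t c), Ele t c Ap Bp M E ρ ϖ →
  ∀ F G : Qd t c → ℂ, (∀ z, ‖F z‖ ≤ 1) → (∀ z, ‖G z‖ ≤ 1) →
  ∃ C : ℝ, 1 ≤ C ∧ ∀ (H r ℓ K : ℕ) (Z : ℝ), 1 ≤ H → 3 ≤ Z → 1 ≤ K →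
    (K : ℝ) ≤ Z * Real.exp ((r : ℝ) * ℓ / H) →
    ∑ k ∈ FK K, ‖PF F M ϖ H r k ^ ℓ * GW wt G Z k‖ ^ 2 ≤ C ^ (ℓ + 1) * (ℓ.factorial : ℝ) ^ 8

/-- CELLX: the cells, for arbitrary coefficients which are roots of unity -/
def S_CELLX : Prop := ∀ (Ap Bp M : ℕ → Prop) (E : ℕ) (ρ : ℕ → ℤ) (ϖ : ℕ → Qd t c),
  Ele t c Ap Bp M E ρ ϖ → ∀ (N : ℕ) (F : Qd t c → ℂ), 1 ≤ N → (∀ z, F z ^ N = 1) →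
  ∃ c' : ℝ, 0 < c' ∧ c' ≤ 1 ∧ ∃ Λ : ℕ, ∀ M' H : ℕ, 1 ≤ H →
    ∃ V₀ : ℕ, ∀ v₀ v₁ : ℕ, V₀ ≤ v₀ → Λ * v₀ ≤ v₁ → ∀ k : ℤ, k ≠ 0 →
    |(k : ℝ)| ≤ Real.exp (M' * (v₀ : ℝ) / H) →
    ∑ v ∈ Ico v₀ v₁, ‖PF F M ϖ H v k‖ ≤ (1 - c') * ∑ v ∈ Ico v₀ v₁, mE M H v

/-- MRG: the Matomaki-Radziwill theorem for one function `G` adapted to a system `ϖ` -/
def S_MRG : Prop := ∀ (Ap Bp M : ℕ → Prop) (E : ℕ) (ρ : ℕ → ℤ) (ϖ : ℕ → Qd t c),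
  Ele t c Ap Bp M E ρ ϖ → ∀ (N : ℕ) (F G : Qd t c → ℂ) (b : ℕ → ℂ), 1 ≤ N → (∀ z, F z ^ N = 1) →
  Tx M ϖ F b G → ∀ (Λ : ℝ) (wt : ℝ → ℝ), Rw Λ wt → ∀ η : ℝ, 0 < η →
  ∃ h : ℝ, 1 ≤ h ∧ ∃ Y₀ : ℝ, ∀ Y : ℝ, Y₀ ≤ Y →
    ∑ k ∈ (FK ⌊Y / h⌋₊).erase 0, ‖GW wt G Y k‖ ^ 2 ≤ η

end MR

/-- periodic sets -/
def Per (M : ℕ) (S : Gi → Prop) : Prop := ∀ z z' : Gi, (M : ℤ) ∣ z.re - z'.re →
  (M : ℤ) ∣ z.im - z'.im → (S z ↔ S z')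

open scoped Classical in
/-- `1_S F` -/
noncomputable def FS (S : Gi → Prop) (F : Gi → ℂ) (z : Gi) : ℂ := if S z then F z else 0

/-- MRX: the Matomaki-Radziwill theorem with a general radial weight, in residue classes -/
def S_MRX : Prop := ∀ (N : ℕ) (F : Gi → ℂ), Cm N F → ∀ (M : ℕ) (S : Gi → Prop), 1 ≤ M →
  Per M S → ∀ (Λ : ℝ) (wt : ℝ → ℝ), Rw Λ wt → ∀ η : ℝ, 0 < η → ∃ h : ℝ, 1 ≤ h ∧ ∃ Y₀ : ℝ,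
  ∀ Y : ℝ, Y₀ ≤ Y → ∑ k ∈ (FK ⌊Y / h⌋₊).erase 0, ‖GW wt (FS S F) Y k‖ ^ 2 ≤ η

/-- MW0X: the frequency `0` -/
def S_MW0X : Prop := ∀ (N : ℕ) (F : Gi → ℂ), Apd N F → ∀ (M : ℕ) (S : Gi → Prop), 1 ≤ M →
  Per M S → ∀ (Λ : ℝ) (wt : ℝ → ℝ), Rw Λ wt → ∀ η : ℝ, 0 < η → ∃ Y₀ : ℝ, ∀ Y : ℝ, Y₀ ≤ Y →
    ‖GW wt (FS S F) Y 0‖ ≤ η

open scoped Classical in
/-- the sums of `A` over most pieces of thin sectors are small -/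
def Mrs (A : Gi → ℝ) : Prop := ∀ (M : ℕ) (S : Gi → Prop), 1 ≤ M → Per M S → ∀ σ : ℝ, 0 < σ →
  σ < 1 → ∀ ε : ℝ, 0 < ε → ∃ H : ℝ, 1 ≤ H ∧ ∃ X₀ : ℝ, ∀ X : ℝ, X₀ ≤ X → ∀ n : ℕ, 1 ≤ n →
    n * H ≤ X → ∑ j ∈ range (n + 1), |∑ z ∈ (pball 0 1 X).filter
      (fun z => σ * X < (nm z : ℝ) ∧ S z ∧ aix n z = (j : ℤ)), A z| ≤ ε * X

/-- MRSX -/
def S_MRSX : Prop := ∀ (N : ℕ) (F : Gi → ℂ), Apd N F →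
  Mrs (fun z => (F z).re) ∧ Mrs (fun z => (F z).im)

/-! ### Part B: the bilinear estimate, for a real function `A` -/

open scoped Classical in
/-- the main term, compare `W78.EC.S_BTM` -/
def Btm (A : Gi → ℝ) : Prop := ∀ (K : ℕ) (κ s₁ s₂ ε : ℝ), 1 ≤ K → 0 < κ → 0 < s₁ → s₁ < s₂ →
  s₂ ≤ 1 → 0 < ε → ∃ Q₀ : ℕ, ∀ Q : ℕ, Q₀ ≤ Q → ∃ X₀ : ℝ, ∀ X : ℝ, X₀ ≤ X →
    |∑ e ∈ good K κ Q X, ∑ w₁ ∈ cw X s₁ s₂ e.1 e.2, ∑ w₂ ∈ cw X s₁ s₂ e.1 e.2,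
      if (Q : ℝ) / Real.log Q ^ 3 ≤ (dt w₁ w₂ : ℝ) then A w₁ * A w₂ * G0 Q X w₁ w₂ else 0| ≤
      ε * X * (Q : ℝ) ^ 2

/-- the bilinear estimate, compare `W78.EC.S_BT` -/
def Bt (A : Gi → ℝ) : Prop := ∀ (K : ℕ) (κ s s₁ s₂ ε : ℝ), 1 ≤ K → 0 < κ → 0 < s → 0 < s₁ →
  s₁ < s₂ → s₂ ≤ 1 → 0 < ε → ∃ Q₀ : ℕ, ∀ Q : ℕ, Q₀ ≤ Q → ∃ X₀ : ℝ, ∀ X : ℝ, X₀ ≤ X →
    ∀ α : Gi → ℝ, (∀ z, |α z| ≤ 1) → (∀ z, α z ≠ 0 → s * X < (nm z : ℝ)) →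
    |∑ e ∈ good K κ Q X, ∑ v ∈ cone X e.1 e.2, ∑ w ∈ cw X s₁ s₂ e.1 e.2,
      α v * A w * th Q (dt v w)| ≤ ε * X * Q

/-- BTMX -/
def S_BTMX : Prop := ∀ A : Gi → ℝ, (∀ z, |A z| ≤ 1) → Mrs A → Btm A

/-- BTX -/
def S_BTX : Prop := ∀ A : Gi → ℝ, (∀ z, |A z| ≤ 1) → Btm A → Bt A

/-! ### Part F: the logarithmic averages -/

open scoped Classical in
/-- pairs of determinant `1` with positive `ip` and norms in given windows, weighted by `g` -/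
noncomputable def AG (g : Gi × Gi → ℂ) (s₁ s₂ s₃ s₄ : ℝ) (X : ℝ) : ℂ :=
  ∑ e ∈ (dedge 0 1 X).filter (fun e => 0 < ip e.1 e.2 ∧ s₁ * X < (nm e.1 : ℝ) ∧
    (nm e.1 : ℝ) ≤ s₂ * X ∧ s₃ * X < (nm e.2 : ℝ) ∧ (nm e.2 : ℝ) ≤ s₄ * X), g e

/-- DILX: invariance under dilation of the logarithmic average -/
def S_DILX : Prop := ∀ g : Gi × Gi → ℂ, (∀ e, ‖g e‖ ≤ 1) → ∀ (s₁ s₂ s₃ s₄ : ℝ), 0 < s₁ →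
  s₁ < s₂ → s₂ ≤ 1 → 0 < s₃ → s₃ < s₄ → s₄ ≤ 1 → ∃ C : ℝ, ∀ p N : ℕ, 1 ≤ p → 1 ≤ N →
    ‖∑ X ∈ Icc 1 N, (((p : ℝ) / (X : ℝ) ^ 2 : ℝ) : ℂ) * AG g s₁ s₂ s₃ s₄ ((X : ℝ) / p) -
      ∑ X ∈ Icc 1 N, ((1 / (X : ℝ) ^ 2 : ℝ) : ℂ) * AG g s₁ s₂ s₃ s₄ X‖ ≤ C * (1 + Real.log p)

/-- ZX: the functions on the trees. `d₁`, `d₂` are functions of the labels; `ζ₁ + i ζ₂` is the sum of
`d₁(v) d₂(w)` over the pairs of determinant `p` divisible by a prime element of norm `p` -/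
def S_ZX : Prop := ∀ (K : ℕ) (κ : ℝ), 1 ≤ K → 0 < κ → ∃ B : ℝ, ∀ Q : ℕ, (K : ℝ) / κ < Q →
  ∀ (A : Type) (d₁ d₂ : A → ℂ), (∀ a, ‖d₁ a‖ ≤ 1) → (∀ a, ‖d₂ a‖ ≤ 1) → ∀ r : ℕ → ℤ,
  ∃ ζ₁ ζ₂ : ℕ → Tr A → ℕ × ℕ × ℕ × ℕ → ℝ, (∀ p T y, |ζ₁ p T y| ≤ B ∧ |ζ₂ p T y| ≤ B) ∧
  ∀ (lab : Gi → A) (X : ℝ), 2 * (K * Q : ℝ) ≤ X → ∀ e ∈ good K κ Q X, ∀ p ∈ PQ Q,
  (((ζ₁ p (TT lab X e) (res p e) : ℝ) : ℂ) + Complex.I * ((ζ₂ p (TT lab X e) (res p e) : ℝ) : ℂ) =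
    (((p : ℝ) + 1) / (2 * Q) : ℝ) * ∑ z ∈ cone X e.1 e.2, ∑ w ∈ cone X e.1 e.2,
      (open scoped Classical in
        if dt z w = p ∧ lat p (r p) z then d₁ (lab z) * d₂ (lab w) else 0)) ∧
  (((av p (ζ₁ p) (TT lab X e) : ℝ) : ℂ) + Complex.I * ((av p (ζ₂ p) (TT lab X e) : ℝ) : ℂ) =
    (1 / (2 * (Q : ℝ)) : ℝ) * ∑ z ∈ cone X e.1 e.2, ∑ w ∈ cone X e.1 e.2,
      (if dt z w = p then d₁ (lab z) * d₂ (lab w) else 0))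

open scoped Classical in
/-- PERX: the estimate for fixed `X` -/
def S_PERX : Prop := ∀ (K : ℕ) (κ : ℝ) (Q : ℕ) (X : ℝ) (A : Type) (d₁ d₂ : A → ℂ) (lab : Gi → A)
  (ϖ : ℕ → Gi) (r : ℕ → ℤ) (ζ₁ ζ₂ : ℕ → Tr A → ℕ × ℕ × ℕ × ℕ → ℝ), 1 ≤ K → 0 < κ → 1 ≤ Q →
  2 * (K * Q : ℝ) ≤ X →
  (∀ p ∈ PQ Q, nm (ϖ p) = p ∧ lat p (r p) (ϖ p) ∧ (p : ℤ) ∣ r p ^ 2 + 1) →
  (∀ e ∈ good K κ Q X, ∀ p ∈ PQ Q,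
    (((ζ₁ p (TT lab X e) (res p e) : ℝ) : ℂ) + Complex.I * ((ζ₂ p (TT lab X e) (res p e) : ℝ) : ℂ) =
      (((p : ℝ) + 1) / (2 * Q) : ℝ) * ∑ z ∈ cone X e.1 e.2, ∑ w ∈ cone X e.1 e.2,
        (if dt z w = p ∧ lat p (r p) z then d₁ (lab z) * d₂ (lab w) else 0)) ∧
    (((av p (ζ₁ p) (TT lab X e) : ℝ) : ℂ) + Complex.I * ((av p (ζ₂ p) (TT lab X e) : ℝ) : ℂ) =
      (1 / (2 * (Q : ℝ)) : ℝ) * ∑ z ∈ cone X e.1 e.2, ∑ w ∈ cone X e.1 e.2,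
        (if dt z w = p then d₁ (lab z) * d₂ (lab w) else 0))) →
  ‖∑ p ∈ PQ Q, ((Real.log p * ((p : ℝ) + 1) : ℝ) : ℂ) *
      ∑ e ∈ (dedge 0 1 (X / p)).filter (InG K κ Q X (ϖ p)),
        d₁ (lab (ϖ p * e.1)) * d₂ (lab (ϖ p * e.2))‖ ≤
    2 * Q * ∑ e ∈ edge 0 1 (X / (K * Q)),
      (|∑ p ∈ PQ Q, Real.log p * (ζ₁ p (TT lab X e) (res p e) - av p (ζ₁ p) (TT lab X e))| +
        |∑ p ∈ PQ Q, Real.log p * (ζ₂ p (TT lab X e) (res p e) - av p (ζ₂ p) (TT lab X e))|) +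
    ‖∑ e ∈ good K κ Q X, ∑ v ∈ cone X e.1 e.2, ∑ w ∈ cone X e.1 e.2,
      d₁ (lab v) * d₂ (lab w) * (th Q (dt v w) : ℂ)‖

/-- the hypotheses on the two functions; `F₁(π) F₂(π) = τ` for the elements of prime norm -/
structure Pr (N : ℕ) (τ : ℂ) (F₁ F₂ : Gi → ℂ) : Prop where
  cm₁ : Cm N F₁
  cm₂ : Cm N F₂
  tw : ∀ π : Gi, (nm π).Prime → F₁ π * F₂ π = τ

/-- relations between residue classes which are invariant under dilation -/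
structure Rel (q : ℕ) (R : Gi → Gi → Prop) : Prop where
  per : ∀ v w v' w' : Gi, (q : ℤ) ∣ v.re - v'.re → (q : ℤ) ∣ v.im - v'.im →
    (q : ℤ) ∣ w.re - w'.re → (q : ℤ) ∣ w.im - w'.im → (R v w ↔ R v' w')
  dil : ∀ π v w : Gi, Nat.Coprime (nm π) q → (R (π * v) (π * w) ↔ R v w)

open scoped Classical in
/-- the function `A` on the residue class of `β` -/
noncomputable def cl (q : ℕ) (β : Gi) (A : Gi → ℝ) (z : Gi) : ℝ :=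
  if (q : ℤ) ∣ z.re - β.re ∧ (q : ℤ) ∣ z.im - β.im then A z else 0

open scoped Classical in
/-- `F₁(v) F₂(w)` for the pairs `v, w` with `R v w` -/
noncomputable def g2 (F₁ F₂ : Gi → ℂ) (R : Gi → Gi → Prop) (e : Gi × Gi) : ℂ :=
  if R e.1 e.2 then F₁ e.1 * F₂ e.2 else 0

/-- MAINX: the logarithmic average is small -/
def S_MAINX : Prop := ∀ (N : ℕ) (τ : ℂ) (F₁ F₂ : Gi → ℂ), Pr N τ F₁ F₂ → ∀ q : ℕ, 1 ≤ q →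
  (∀ β : Gi, Bt (cl q β (fun z => (F₂ z).re)) ∧ Bt (cl q β (fun z => (F₂ z).im))) →
  ∀ R : Gi → Gi → Prop, Rel q R → ∀ (s₁ s₂ s₃ s₄ : ℝ), 0 < s₁ → s₁ < s₂ → s₂ ≤ 1 → 0 < s₃ →
  s₃ < s₄ → s₄ ≤ 1 → ∀ ε : ℝ, 0 < ε → ∃ N₀ : ℕ, ∀ N' : ℕ, N₀ ≤ N' →
    ‖∑ X ∈ Icc 1 N', ((1 / (X : ℝ) ^ 2 : ℝ) : ℂ) * AG (g2 F₁ F₂ R) s₁ s₂ s₃ s₄ X‖ ≤
      ε * Real.log N'

/-- FINX: logarithmic means over the pairs -/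
def S_FINX : Prop := ∀ F : ℕ → ℕ → ℂ, (∀ a b, ‖F a b‖ ≤ 1) →
  (∀ s : ℝ, 0 < s → s < 1 → ∀ ε : ℝ, 0 < ε → ∃ N₀ : ℕ, ∀ N : ℕ, N₀ ≤ N →
    ‖∑ X ∈ Icc 1 N, ((1 / (X : ℝ) ^ 2 : ℝ) : ℂ) *
      AG (fun e => F (nm e.1) (nm e.2)) s 1 s 1 X‖ ≤ ε * Real.log N) →
  Tendsto (fun N : ℕ => (∑ p ∈ SP N, F p.1 p.2 / ((max p.1 p.2 : ℕ) : ℂ)) / (Real.log N : ℂ))
    atTop (nhds 0)

/-- `n ≡ a` and `d ≡ r mod q`, where `d d' = n^2+1` -/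
def Cd (q a r : ℕ) (p : ℕ × ℕ) : Prop := ∃ n : ℕ, p.1 * p.2 = n ^ 2 + 1 ∧ n ≡ a [MOD q] ∧
  p.1 ≡ r [MOD q]

open scoped Classical in
/-- CHR: the means of `b₁^Ω(d) b₂^Ω(d')` -/
def S_CHR : Prop := ∀ (k : ℕ) (b₁ b₂ : ℂ), 1 ≤ k → b₁ ^ k = 1 → b₂ ^ k = 1 → (b₁ ≠ 1 ∨ b₂ ≠ 1) →
  ∀ q a r : ℕ, 1 ≤ q → Tendsto (fun N : ℕ => (∑ p ∈ (SP N).filter (Cd q a r),
    b₁ ^ ArithmeticFunction.cardFactors p.1 * b₂ ^ ArithmeticFunction.cardFactors p.2 /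
      ((max p.1 p.2 : ℕ) : ℂ)) / (Real.log N : ℂ)) atTop (nhds 0)

/-- SLOWQ: lower bound for the weights in a residue class -/
def S_SLOWQ : Prop := ∀ q a : ℕ, 1 ≤ q → ∃ c : ℝ, 0 < c ∧ ∃ N₀ : ℕ, ∀ N : ℕ, N₀ ≤ N →
  c * Real.log N ≤ ∑ n ∈ (Icc 1 N).filter (fun n => n ≡ a [MOD q]), wn n

open scoped Classical in
/-- FINJ: joint equidistribution modulo `k` of `Ω(d)` and `Ω(d')` -/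
def S_FINJ : Prop := ∀ k : ℕ, 1 ≤ k → ∀ q a r : ℕ, 1 ≤ q → ∀ i j : ℕ, Tendsto (fun N : ℕ =>
  ((∑ p ∈ (SP N).filter (fun p => Cd q a r p ∧ ArithmeticFunction.cardFactors p.1 ≡ i [MOD k] ∧
    ArithmeticFunction.cardFactors p.2 ≡ j [MOD k]), 1 / ((max p.1 p.2 : ℕ) : ℝ)) -
    1 / (k : ℝ) ^ 2 * ∑ p ∈ (SP N).filter (Cd q a r), 1 / ((max p.1 p.2 : ℕ) : ℝ)) /
      Real.log N) atTop (nhds 0)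

open scoped Classical in
/-- FINN: equidistribution modulo `k` of `Ω(n^2+1)` -/
def S_FINN : Prop := ∀ k : ℕ, 1 ≤ k → ∀ q a : ℕ, 1 ≤ q → ∀ j : ℕ, Tendsto (fun N : ℕ =>
  (∑ n ∈ (Icc 1 N).filter (fun n => n ≡ a [MOD q] ∧
    ArithmeticFunction.cardFactors (n ^ 2 + 1) ≡ j [MOD k]), wn n) /
    ∑ n ∈ (Icc 1 N).filter (fun n => n ≡ a [MOD q]), wn n) atTop (nhds (1 / (k : ℝ)))

end Pool.Agent.W251.EX
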