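import Pool.Agent.W78.EC.All
import Pool.Agent.W565.GX.Mom
import Pool.Agent.W22.EX.Pntc
import Pool.Agent.W583.EX.Amv1
import Pool.Agent.W973.EX.Amv
import Pool.Agent.W318.EX.Lmx
import Pool.Agent.W578.EX.PNTX
import Pool.Agent.W311.EX.Decx
import Pool.Agent.W55.EX.Momx
import Pool.Agent.W721.EX.Cellx
import Pool.Agent.W279.EX.MRG
import Pool.Agent.W378.EX.Mrx
import Pool.Agent.W507.EX.MW0X
import Pool.Agent.W915.EX.Mrsx
import Pool.Agent.W672.EX.Btmx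
import Pool.Agent.W940.EX.BTX
import Pool.Agent.W251.EX.Glue

/-!
Project EX (helper251): assembly, part A: the bilinear estimate for `b^Ω` on residue classes.
-/

set_option autoImplicit false

namespace Pool.Agent.W251.EX

open Pool.Agent.W78.EC (S_LCON Gi)

theorem lconA : S_LCON := Pool.Agent.W85.EC.lcon Pool.Agent.W930.EC.theta

theorem pntxA : S_PNTX := Pool.Agent.W578.EX.pntx (Pool.Agent.W318.EX.lmx
  (Pool.Agent.W22.EX.pntc lconA (Pool.Agent.W816.EC.lnv lconA))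
  (Pool.Agent.W973.EX.amv Pool.Agent.W583.EX.amv1) lconA)

theorem mrgA : S_MRG 0 1 := by
  have hD : (0 : ℤ) ^ 2 < 4 * 1 := by norm_num
  have hlat : Pool.Agent.W78.GA.S_LAT 0 1 := Pool.Agent.W45.GA.lat hD
  have hred : Pool.Agent.W78.GA.S_RED 0 1 := Pool.Agent.W322.GA.red hD
  have hlati : Pool.Agent.W78.GA.S_LATI 0 1 := Pool.Agent.W322.GA.lati_of hD hlat hred
  have hls : Pool.Agent.W78.GA.S_LS 0 1 := Pool.Agent.W327.GA.ls hD
  have hang : Pool.Agent.W78.GA.S_ANG 0 1 :=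
    Pool.Agent.W397.GA.ang_of (Pool.Agent.W327.GA.ang1 hD) (Pool.Agent.W397.GA.ang2 hD)
  have hangi : Pool.Agent.W78.GA.S_ANGI 0 1 := Pool.Agent.W322.GA.angi_of hD hang hred
  have hmach : Pool.Agent.W78.GA.S_MACH := Pool.Agent.W586.GA.mach_of Pool.Agent.W240.GA.leva
    Pool.Agent.W240.GA.levb Pool.Agent.W397.GA.s_cnt Pool.Agent.W586.GA.upart
  exact Pool.Agent.W279.EX.mrg hD hmach
    (Pool.Agent.W311.EX.decx hD hlat hlati (Pool.Agent.W999.GA.tk_of hD hlat hlati))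
    (Pool.Agent.W55.EX.mom0x hD hls hlat) (Pool.Agent.W565.GX.momp hD hls)
    (Pool.Agent.W55.EX.momx hD hls hlat hlati)
    (Pool.Agent.W191.GA.sparse_of hD hang hlat) hls
    (Pool.Agent.W721.EX.cellx hD
      (Pool.Agent.W194.GA.sele_of hD hangi hlat (Pool.Agent.W109.GA.selb hD))) hlat

theorem mrsxA : S_MRSX :=
  Pool.Agent.W915.EX.mrsx (Pool.Agent.W378.EX.mrx mrgA) Pool.Agent.W507.EX.mw0x

theorem btA (N : ℕ) (b : ℂ) (hN : 1 ≤ N) (hb : b ^ N = 1) (hb1 : b ≠ 1) (q : ℕ) (β : Gi)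
    (hq : 1 ≤ q) : Bt (cl q β (fun z => (bO b z).re)) ∧ Bt (cl q β (fun z => (bO b z).im)) :=
  bt_cl mrsxA (Pool.Agent.W672.EX.btmx Pool.Agent.W683.EC.jb Pool.Agent.W683.EC.jv
      Pool.Agent.W395.EC.ln Pool.Agent.W395.EC.dtb)
    (Pool.Agent.W940.EX.btx Pool.Agent.W78.EC.gg0All Pool.Agent.W395.EC.ln
      Pool.Agent.W395.EC.dtb) (pntxA N b hN hb hb1) hq β

end Pool.Agent.W251.EX
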