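import Pool.Agent.W251.EX.Out3

/-!
Project EX (helper251): weighted sums of the Moebius function over `n^2+1` in progressions.
-/

set_option autoImplicit false

namespace Pool.Agent.W251.EX

open Finset Filter
open Pool.Agent.W78.EC (Gi SP)

/-- the Liouville function -/
noncomputable def lm (n : ℕ) : ℂ := (-1 : ℂ) ^ ArithmeticFunction.cardFactors n

lemma fg_lm : FG 2 1 lm lm where
  pos := by norm_num
  mf := fun m n hm hn => by
    unfold lm
    rw [ArithmeticFunction.cardFactors_mul hm hn, pow_add]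
  mg := fun m n hm hn => by
    unfold lm
    rw [ArithmeticFunction.cardFactors_mul hm hn, pow_add]
  pf := fun n => by
    unfold lm
    rw [← pow_mul, mul_comm, pow_mul]
    norm_num
  pg := fun n => by
    unfold lm
    rw [← pow_mul, mul_comm, pow_mul]
    norm_num
  tw := fun p hp _ => by
    unfold lm
    rw [ArithmeticFunction.cardFactors_apply_prime hp]
    norm_num

lemma apd_lm : Apd 2 (fun z => lm (Pool.Agent.W78.GA.nm z)) :=
  pntxA 2 (-1) (by norm_num) (by norm_num) (by norm_num)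

open scoped Classical in
/-- weighted sums of `μ(n^2+1)` over `n ≡ a mod q` are small at almost all scales -/
theorem outM (hTS : S_TS) (q : ℕ) (hq : 1 ≤ q) (a r : ℕ) (s₁ s₂ s₃ s₄ ε : ℝ) (hs₁ : 0 ≤ s₁)
    (hs₁₂ : s₁ < s₂) (hs₂ : s₂ ≤ 1) (hs₃ : 0 ≤ s₃) (hs₃₄ : s₃ < s₄) (hs₄ : s₄ ≤ 1) (hε : 0 < ε) :
    Tendsto (fun N : ℕ => (∑ X ∈ (Icc 1 N).filter (fun X : ℕ => ε * X <
      |∑ n ∈ (range (X + 1)).filter (fun n => n ≡ a [MOD q]),
        (ArithmeticFunction.moebius (n ^ 2 + 1) : ℝ) *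
        (((n ^ 2 + 1).divisors.filter (fun d : ℕ => d ≡ r [MOD q] ∧ s₁ * X < (d : ℝ) ∧
          (d : ℝ) ≤ s₂ * X ∧ s₃ * X < (((n ^ 2 + 1) / d : ℕ) : ℝ) ∧
          (((n ^ 2 + 1) / d : ℕ) : ℝ) ≤ s₄ * X)).card : ℝ)|), 1 / (X : ℝ)) / Real.log N)
      atTop (nhds 0) := by
  have h := tt (fun X => ∑ p ∈ (SW q a r s₁ s₂ s₃ s₄ X).filter
      (fun p => Squarefree (p.1 * p.2)), lm p.1 * lm p.2)
    (fun ε' hε' => hTS 2 1 lm lm fg_lm (Or.inr apd_lm) q a r hq s₁ s₂ s₃ s₄ hs₁ hs₁₂ hs₂ hs₃ hs₃₄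
      hs₄ ε' hε') ε hε
  refine h.congr fun N => ?_
  congr 1
  refine sum_congr ?_ fun _ _ => rfl
  ext X
  rw [mem_filter, mem_filter]
  refine and_congr_right fun _ => ?_
  have e1 : ∑ p ∈ (SW q a r s₁ s₂ s₃ s₄ X).filter (fun p => Squarefree (p.1 * p.2)),
      lm p.1 * lm p.2 =
      ((∑ n ∈ (range (X + 1)).filter (fun n => n ≡ a [MOD q]),
        (ArithmeticFunction.moebius (n ^ 2 + 1) : ℝ) *
        (((n ^ 2 + 1).divisors.filter (fun d : ℕ => d ≡ r [MOD q] ∧ s₁ * X < (d : ℝ) ∧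
          (d : ℝ) ≤ s₂ * X ∧ s₃ * X < (((n ^ 2 + 1) / d : ℕ) : ℝ) ∧
          (((n ^ 2 + 1) / d : ℕ) : ℝ) ≤ s₄ * X)).card : ℝ) : ℝ) : ℂ) := by
    rw [sum_filter, conv (fun x y => if Squarefree (x * y) then lm x * lm y else 0) q a r s₁ s₂ s₃
      s₄ hs₂ hs₄ X, Complex.ofReal_sum]
    refine sum_congr rfl fun n _ => ?_
    have e2 : ∀ d ∈ (n ^ 2 + 1).divisors.filter (fun d : ℕ => d ≡ r [MOD q] ∧ s₁ * X < (d : ℝ) ∧
          (d : ℝ) ≤ s₂ * X ∧ s₃ * X < (((n ^ 2 + 1) / d : ℕ) : ℝ) ∧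
          (((n ^ 2 + 1) / d : ℕ) : ℝ) ≤ s₄ * X),
        (if Squarefree (d * ((n ^ 2 + 1) / d)) then lm d * lm ((n ^ 2 + 1) / d) else 0) =
        ((ArithmeticFunction.moebius (n ^ 2 + 1) : ℤ) : ℂ) := by
      intro d hd
      have hd1 := (Nat.mem_divisors.1 (mem_filter.1 hd).1).1
      have hdd : d * ((n ^ 2 + 1) / d) = n ^ 2 + 1 := Nat.mul_div_cancel' hd1
      have hd0 : d ≠ 0 := fun h0 => by
        rw [h0, Nat.zero_mul] at hdd
        exact absurd hdd (by positivity)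
      have hd2 : (n ^ 2 + 1) / d ≠ 0 := fun h0 => by
        rw [h0, Nat.mul_zero] at hdd
        exact absurd hdd (by positivity)
      rw [← fg_lm.mf d _ hd0 hd2, hdd]
      by_cases hs : Squarefree (n ^ 2 + 1)
      · rw [if_pos hs, ArithmeticFunction.moebius_apply_of_squarefree hs]
        unfold lm
        push_cast
        rfl
      · rw [if_neg hs, ArithmeticFunction.moebius_eq_zero_of_not_squarefree hs]
        simp
    rw [sum_congr rfl e2, sum_const, nsmul_eq_mul]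
    push_cast
    ring
  rw [e1, Complex.norm_real, Real.norm_eq_abs]

end Pool.Agent.W251.EX
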