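import Pool.Agent.W251.EX.Out9

/-!
Project EX (helper251): from almost all scales to all scales.
-/

set_option autoImplicit false

namespace Pool.Agent.W251.EX

open Finset Filter

open scoped Classical in
/-- a set of logarithmic density zero does not contain all integers between `N^(1-δ)` and `N` -/
theorem ex_scale {P : ℕ → Prop} (h : Tendsto (fun Z : ℕ => (∑ X ∈ (Icc 1 Z).filter P,
    1 / (X : ℝ)) / Real.log Z) atTop (nhds 0)) (δ : ℝ) (hδ : 0 < δ) (hδ1 : δ < 1) :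
    ∃ N₀ : ℕ, ∀ N : ℕ, N₀ ≤ N → ∃ X : ℕ, X ≤ N ∧ (N : ℝ) ^ (1 - δ) ≤ X ∧ ¬ P X := by
  obtain ⟨N₁, hN₁⟩ := Metric.tendsto_atTop.1 h (δ / 2) (by positivity)
  have hl : Tendsto (fun N : ℕ => Real.log N) atTop atTop :=
    Real.tendsto_log_atTop.comp tendsto_natCast_atTop_atTop
  obtain ⟨N₂, hN₂⟩ := (hl.eventually_gt_atTop (2 / δ)).exists_forall_of_atTop
  refine ⟨max (max N₁ N₂) 2, fun N hN => ?_⟩
  have h1 := hN₁ N ((le_max_left _ _).trans ((le_max_left _ _).trans hN))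
  have h2 := hN₂ N ((le_max_right _ _).trans ((le_max_left _ _).trans hN))
  have hN2 : 2 ≤ N := (le_max_right _ _).trans hN
  have hN0 : (0 : ℝ) < N := by positivity
  have hlog : 0 < Real.log N := Real.log_pos (by exact_mod_cast hN2)
  by_contra hcon
  push Not at hcon
  obtain ⟨M, hM⟩ : ∃ M : ℕ, M = ⌊(N : ℝ) ^ (1 - δ)⌋₊ := ⟨_, rfl⟩
  have hMle : (M : ℝ) ≤ (N : ℝ) ^ (1 - δ) := by
    rw [hM]
    exact Nat.floor_le (by positivity)
  have h3 : ∑ X ∈ Icc 1 N, 1 / (X : ℝ) ≤ ∑ X ∈ Icc 1 M, 1 / (X : ℝ) +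
      ∑ X ∈ (Icc 1 N).filter P, 1 / (X : ℝ) := by
    have hsub : Icc 1 N ⊆ Icc 1 M ∪ (Icc 1 N).filter P := by
      intro X hX
      rcases le_or_gt X M with h4 | h4
      · exact mem_union_left _ (mem_Icc.2 ⟨(mem_Icc.1 hX).1, h4⟩)
      · refine mem_union_right _ (mem_filter.2 ⟨hX, ?_⟩)
        refine hcon X (mem_Icc.1 hX).2 ?_
        rw [hM] at h4
        exact (Nat.lt_of_floor_lt h4).le
    refine (sum_le_sum_of_subset_of_nonneg hsub (fun _ _ _ => by positivity)).trans ?_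
    have h6 := sum_union_inter (s₁ := Icc 1 M) (s₂ := (Icc 1 N).filter P)
      (f := fun X : ℕ => 1 / (X : ℝ))
    have h7 : (0 : ℝ) ≤ ∑ X ∈ Icc 1 M ∩ (Icc 1 N).filter P, 1 / (X : ℝ) :=
      sum_nonneg (fun _ _ => by positivity)
    linarith
  have h4 : Real.log N ≤ ∑ X ∈ Icc 1 N, 1 / (X : ℝ) := by
    have h5 := log_add_one_le_harmonic N
    rw [harmonic_eq_sum_Icc] at h5
    push_cast at h5
    have h6 : Real.log N ≤ Real.log (N + 1) := Real.log_le_log hN0 (by linarith)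
    simpa using h6.trans h5
  have h5 : ∑ X ∈ Icc 1 M, 1 / (X : ℝ) ≤ 1 + (1 - δ) * Real.log N := by
    have h6 := harmonic_le_one_add_log M
    rw [harmonic_eq_sum_Icc] at h6
    push_cast at h6
    have h7 : Real.log M ≤ (1 - δ) * Real.log N := by
      rcases Nat.eq_zero_or_pos M with h8 | h8
      · rw [h8, Nat.cast_zero, Real.log_zero]
        have : 0 < 1 - δ := by linarith
        positivity
      · rw [← Real.log_rpow hN0]
        exact Real.log_le_log (by exact_mod_cast h8) hMle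
    have h8 : ∑ X ∈ Icc 1 M, 1 / (X : ℝ) ≤ 1 + Real.log M := by simpa using h6
    linarith
  have h6 : ∑ X ∈ (Icc 1 N).filter P, 1 / (X : ℝ) < δ / 2 * Real.log N := by
    have h7 : (0 : ℝ) ≤ ∑ X ∈ (Icc 1 N).filter P, 1 / (X : ℝ) :=
      sum_nonneg (fun _ _ => by positivity)
    rw [Real.dist_eq, sub_zero, abs_of_nonneg (div_nonneg h7 hlog.le), div_lt_iff₀ hlog] at h1
    exact h1
  rw [div_lt_iff₀ hδ] at h2
  nlinarith

/-- many `n` in each class, at all scales -/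
theorem outCall (q : ℕ) (hq : 1 ≤ q) (k : ℕ) (hk : 1 ≤ k) (j : ℕ) (δ : ℝ) (hδ : 0 < δ) :
    ∃ N₀ : ℕ, ∀ N : ℕ, N₀ ≤ N → (N : ℝ) ^ (1 - δ) ≤ cn q k j N := by
  obtain ⟨η, hη⟩ : ∃ η : ℝ, η = min δ 1 / 4 := ⟨_, rfl⟩
  have hη0 : 0 < η := by rw [hη]; have := lt_min hδ one_pos; linarith
  have hη1 : η < 1 := by rw [hη]; have := min_le_right δ 1; linarith
  have hηδ : 2 * η ≤ δ := by rw [hη]; have := min_le_left δ 1; linarith
  obtain ⟨N₁, h1⟩ := ex_scale (outC q hq k hk j 1 one_pos) η hη0 hη1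
  have hev : ∀ᶠ x : ℝ in atTop, Real.log x ^ (2 * Real.log 2 + 1) ≤ x ^ η := by
    have h2 := (isLittleO_log_rpow_rpow_atTop (2 * Real.log 2 + 1) hη0).bound one_pos
    filter_upwards [h2, eventually_ge_atTop 1] with x hx hx1
    rw [one_mul, Real.norm_eq_abs, Real.norm_eq_abs,
      abs_of_nonneg (Real.rpow_nonneg (Real.log_nonneg hx1) _),
      abs_of_nonneg (Real.rpow_nonneg (by linarith) _)] at hx
    exact hx
  obtain ⟨x₀, hx₀⟩ := eventually_atTop.1 hev
  refine ⟨max (max N₁ 2) ⌈x₀⌉₊, fun N hN => ?_⟩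
  have hN1 : N₁ ≤ N := (le_max_left _ _).trans ((le_max_left _ _).trans hN)
  have hN2 : 2 ≤ N := (le_max_right _ _).trans ((le_max_left _ _).trans hN)
  have hNx : x₀ ≤ N := (Nat.le_ceil _).trans (by exact_mod_cast (le_max_right _ _).trans hN)
  have hN0 : (0 : ℝ) < N := by positivity
  have hNr : (1 : ℝ) ≤ N := by exact_mod_cast (by omega : 1 ≤ N)
  have hlogN : 0 < Real.log N := Real.log_pos (by exact_mod_cast hN2)
  obtain ⟨X, hXN, hX, hP⟩ := h1 N hN1
  push Not at hP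
  have hX0 : (0 : ℝ) < X := lt_of_lt_of_le (Real.rpow_pos_of_pos hN0 _) hX
  have hX1 : (1 : ℝ) ≤ X := by
    have : 0 < X := by exact_mod_cast hX0
    exact_mod_cast this
  have hlog2 : 0 < 2 * Real.log 2 + 1 := by
    have := Real.log_pos (show (1 : ℝ) < 2 by norm_num)
    linarith
  have h3 : (cn q k j X : ℝ) ≤ cn q k j N := by exact_mod_cast cn_mono q k j hXN
  have h4 : Real.log X ^ (2 * Real.log 2 + 1) ≤ (N : ℝ) ^ η := by
    refine le_trans ?_ (hx₀ N hNx)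
    exact Real.rpow_le_rpow (Real.log_nonneg hX1)
      (Real.log_le_log hX0 (by exact_mod_cast hXN)) hlog2.le
  rcases eq_or_lt_of_le (Real.rpow_nonneg (Real.log_nonneg hX1) (2 * Real.log 2 + 1)) with h5 | h5
  · -- `X = 1`
    have h6 : Real.log X = 0 := by
      by_contra h7
      have h8 : 0 < Real.log X := lt_of_le_of_ne (Real.log_nonneg hX1) (Ne.symm h7)
      have := Real.rpow_pos_of_pos h8 (2 * Real.log 2 + 1)
      linarith
    exfalso
    have h7 : (N : ℝ) ^ (1 - η) ≤ 1 := by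
      have h8 : (X : ℝ) = 1 := by
        rcases Real.log_eq_zero.1 h6 with h9 | h9 | h9
        · linarith
        · exact h9
        · linarith
      rwa [h8] at hX
    have h8 : 1 < (N : ℝ) ^ (1 - η) :=
      Real.one_lt_rpow (by exact_mod_cast hN2) (by linarith)
    linarith
  · have h6 : (N : ℝ) ^ (1 - δ) ≤ (X : ℝ) / Real.log X ^ (2 * Real.log 2 + 1) := by
      rw [le_div_iff₀ h5]
      calc (N : ℝ) ^ (1 - δ) * Real.log X ^ (2 * Real.log 2 + 1)
          ≤ (N : ℝ) ^ (1 - δ) * (N : ℝ) ^ η :=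
            mul_le_mul_of_nonneg_left h4 (Real.rpow_nonneg hN0.le _)
        _ = (N : ℝ) ^ (1 - δ + η) := (Real.rpow_add hN0 _ _).symm
        _ ≤ (N : ℝ) ^ (1 - η) := Real.rpow_le_rpow_of_exponent_le hNr (by linarith)
        _ ≤ X := hX
    exact h6.trans (hP.trans h3)

end Pool.Agent.W251.EX
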