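import Pool.Agent.W251.EX.Defs3

/-!
Project EX (helper251), part 4: general completely multiplicative functions, and squarefree values.
Definitions and statements.
-/

set_option autoImplicit false

namespace Pool.Agent.W251.EX

open Finset Filter
open Pool.Agent.W78.GA (nm)
open Pool.Agent.W78.EC (Gi SP)

/-- completely multiplicative functions `f`, `g` whose values are roots of unity, with
`f(p) g(p) = τ` for all primes `p` not congruent to `3` mod `4` -/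
structure FG (N : ℕ) (τ : ℂ) (f g : ℕ → ℂ) : Prop where
  pos : 1 ≤ N
  mf : ∀ m n : ℕ, m ≠ 0 → n ≠ 0 → f (m * n) = f m * f n
  mg : ∀ m n : ℕ, m ≠ 0 → n ≠ 0 → g (m * n) = g m * g n
  pf : ∀ n : ℕ, f n ^ N = 1
  pg : ∀ n : ℕ, g n ^ N = 1
  tw : ∀ p : ℕ, p.Prime → p % 4 ≠ 3 → f p * g p = τ

/-- the bilinear estimate for aperiodic functions, see `bt_cl` -/
def S_BTA : Prop := ∀ (N : ℕ) (F : Gi → ℂ), Apd N F → ∀ (q : ℕ) (β : Gi), 1 ≤ q →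
  Bt (cl q β (fun z => (F z).re)) ∧ Bt (cl q β (fun z => (F z).im))

/-- no square of a prime `≤ P` divides `d d'` -/
def Sqp (P : ℕ) (p : ℕ × ℕ) : Prop := ∀ l : ℕ, l ≤ P → l.Prime → ¬ l ^ 2 ∣ p.1 * p.2

open scoped Classical in
/-- TW: cancellation for `f(d) g(d')` over the pairs in windows without small square divisors, at
almost all scales -/
def S_TW : Prop := ∀ (N : ℕ) (τ : ℂ) (f g : ℕ → ℂ), FG N τ f g →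
  (Apd N (fun z => f (nm z)) ∨ Apd N (fun z => g (nm z))) → ∀ q a r P : ℕ, 1 ≤ q →
  ∀ (s₁ s₂ s₃ s₄ : ℝ), 0 ≤ s₁ → s₁ < s₂ → s₂ ≤ 1 → 0 ≤ s₃ → s₃ < s₄ → s₄ ≤ 1 →
  ∀ ε : ℝ, 0 < ε → ∃ N₀ : ℕ, ∀ N' : ℕ, N₀ ≤ N' → ∑ X ∈ Icc 1 N', 1 / (X : ℝ) ^ 2 *
    ‖∑ p ∈ (SW q a r s₁ s₂ s₃ s₄ X).filter (Sqp P), f p.1 * g p.2‖ ≤ ε * Real.log N'

open scoped Classical in
/-- TAIL: few pairs for which `d d'` is divisible by the square of a large prime only -/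
def S_TAIL : Prop := ∀ δ : ℝ, 0 < δ → ∃ P X₀ : ℕ, ∀ X : ℕ, X₀ ≤ X →
  (((SP X).filter (fun p => Sqp P p ∧ ¬ Squarefree (p.1 * p.2))).card : ℝ) ≤ δ * X

open scoped Classical in
/-- TS: cancellation for `f(d) g(d')` over the pairs in windows with `d d'` squarefree -/
def S_TS : Prop := ∀ (N : ℕ) (τ : ℂ) (f g : ℕ → ℂ), FG N τ f g →
  (Apd N (fun z => f (nm z)) ∨ Apd N (fun z => g (nm z))) → ∀ q a r : ℕ, 1 ≤ q →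
  ∀ (s₁ s₂ s₃ s₄ : ℝ), 0 ≤ s₁ → s₁ < s₂ → s₂ ≤ 1 → 0 ≤ s₃ → s₃ < s₄ → s₄ ≤ 1 →
  ∀ ε : ℝ, 0 < ε → ∃ N₀ : ℕ, ∀ N' : ℕ, N₀ ≤ N' → ∑ X ∈ Icc 1 N', 1 / (X : ℝ) ^ 2 *
    ‖∑ p ∈ (SW q a r s₁ s₂ s₃ s₄ X).filter (fun p => Squarefree (p.1 * p.2)), f p.1 * g p.2‖ ≤
      ε * Real.log N'

open scoped Classical in
/-- the deviation at scale `X` from equidistribution modulo `k`, for squarefree `d d'` -/
noncomputable def devQ (k q a r i j : ℕ) (s₁ s₂ s₃ s₄ : ℝ) (X : ℕ) : ℝ :=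
  |(((SW q a r s₁ s₂ s₃ s₄ X).filter (fun p => Squarefree (p.1 * p.2) ∧
    ArithmeticFunction.cardFactors p.1 ≡ i [MOD k] ∧
    ArithmeticFunction.cardFactors p.2 ≡ j [MOD k])).card : ℝ) -
    1 / (k : ℝ) ^ 2 *
      (((SW q a r s₁ s₂ s₃ s₄ X).filter (fun p => Squarefree (p.1 * p.2))).card : ℝ)|

/-- FINQ: equidistribution modulo `k` for squarefree values, at almost all scales -/
def S_FINQ : Prop := ∀ k : ℕ, 1 ≤ k → ∀ q a r : ℕ, 1 ≤ q → ∀ i j : ℕ, ∀ (s₁ s₂ s₃ s₄ : ℝ),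
  0 ≤ s₁ → s₁ < s₂ → s₂ ≤ 1 → 0 ≤ s₃ → s₃ < s₄ → s₄ ≤ 1 → ∀ ε : ℝ, 0 < ε →
  Tendsto (fun N : ℕ => (∑ X ∈ (Icc 1 N).filter
    (fun X : ℕ => ε * X < devQ k q a r i j s₁ s₂ s₃ s₄ X), 1 / (X : ℝ)) / Real.log N) atTop (nhds 0)

open scoped Classical in
/-- SPS: lower bound for the number of pairs with `d d'` squarefree in a residue class -/
def S_SPS : Prop := ∀ q a : ℕ, 1 ≤ q → (∀ l : ℕ, l.Prime → l ^ 2 ∣ q → ¬ l ^ 2 ∣ a ^ 2 + 1) →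
  ∃ c : ℝ, 0 < c ∧ ∃ X₀ : ℕ, ∀ X : ℕ, X₀ ≤ X →
    c * X ≤ (((SP X).filter (fun p => Squarefree (p.1 * p.2) ∧
      ∃ n : ℕ, p.1 * p.2 = n ^ 2 + 1 ∧ n ≡ a [MOD q])).card : ℝ)

/-- TT: from mean values to exceptional scales -/
def S_TT : Prop := ∀ A : ℕ → ℂ, (∀ ε : ℝ, 0 < ε → ∃ N₀ : ℕ, ∀ N : ℕ, N₀ ≤ N →
    ∑ X ∈ Icc 1 N, 1 / (X : ℝ) ^ 2 * ‖A X‖ ≤ ε * Real.log N) → ∀ ε : ℝ, 0 < ε →
  Tendsto (fun N : ℕ => (∑ X ∈ (Icc 1 N).filter (fun X : ℕ => ε * X < ‖A X‖), 1 / (X : ℝ)) /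
    Real.log N) atTop (nhds 0)

end Pool.Agent.W251.EX
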