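import Pool.Agent.W251.EX.Defs2

/-!
Project EX (helper251), part 3: almost all scales, with windows for `d` and `d'`. Definitions and
statements.
-/

set_option autoImplicit false

namespace Pool.Agent.W251.EX

open Finset Filter
open Pool.Agent.W78.EC (Gi SP)

open scoped Classical in
/-- the pairs with `s₁ X < d ≤ s₂ X`, `s₃ X < d' ≤ s₄ X`, `n ≡ a`, `d ≡ r mod q` -/
noncomputable def SW (q a r : ℕ) (s₁ s₂ s₃ s₄ : ℝ) (X : ℕ) : Finset (ℕ × ℕ) :=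
  (SP X).filter (fun p => Cd q a r p ∧ s₁ * X < (p.1 : ℝ) ∧ (p.1 : ℝ) ≤ s₂ * X ∧
    s₃ * X < (p.2 : ℝ) ∧ (p.2 : ℝ) ≤ s₄ * X)

/-- CHRW: the means of `b₁^Ω(d) b₂^Ω(d')` at almost all scales, with windows -/
def S_CHRW : Prop := ∀ (k : ℕ) (b₁ b₂ : ℂ), 1 ≤ k → b₁ ^ k = 1 → b₂ ^ k = 1 →
  (b₁ ≠ 1 ∨ b₂ ≠ 1) → ∀ q a r : ℕ, 1 ≤ q → ∀ (s₁ s₂ s₃ s₄ : ℝ), 0 ≤ s₁ → s₁ < s₂ → s₂ ≤ 1 →
  0 ≤ s₃ → s₃ < s₄ → s₄ ≤ 1 → ∀ ε : ℝ, 0 < ε → ∃ N₀ : ℕ, ∀ N : ℕ, N₀ ≤ N →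
    ∑ X ∈ Icc 1 N, 1 / (X : ℝ) ^ 2 * ‖∑ p ∈ SW q a r s₁ s₂ s₃ s₄ X,
      b₁ ^ ArithmeticFunction.cardFactors p.1 * b₂ ^ ArithmeticFunction.cardFactors p.2‖ ≤
      ε * Real.log N

/-- the deviation at scale `X` from equidistribution modulo `k` -/
noncomputable def devW (k q a r i j : ℕ) (s₁ s₂ s₃ s₄ : ℝ) (X : ℕ) : ℝ :=
  |(((SW q a r s₁ s₂ s₃ s₄ X).filter (fun p => ArithmeticFunction.cardFactors p.1 ≡ i [MOD k] ∧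
    ArithmeticFunction.cardFactors p.2 ≡ j [MOD k])).card : ℝ) -
    1 / (k : ℝ) ^ 2 * ((SW q a r s₁ s₂ s₃ s₄ X).card : ℝ)|

/-- FINW: for almost all scales `X` the residues modulo `k` of `(Ω(d), Ω(d'))` are equidistributed
over the pairs in every window -/
def S_FINW : Prop := ∀ k : ℕ, 1 ≤ k → ∀ q a r : ℕ, 1 ≤ q → ∀ i j : ℕ, ∀ (s₁ s₂ s₃ s₄ : ℝ),
  0 ≤ s₁ → s₁ < s₂ → s₂ ≤ 1 → 0 ≤ s₃ → s₃ < s₄ → s₄ ≤ 1 → ∀ ε : ℝ, 0 < ε →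
  Tendsto (fun N : ℕ => (∑ X ∈ (Icc 1 N).filter
    (fun X : ℕ => ε * X < devW k q a r i j s₁ s₂ s₃ s₄ X), 1 / (X : ℝ)) / Real.log N) atTop (nhds 0)

end Pool.Agent.W251.EX
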