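import Pool.Agent.W251.EX.AllA
import Pool.Agent.W251.EX.Defs3
import Pool.Agent.W32.EX.ZX
import Pool.Agent.W490.EX.Perx
import Pool.Agent.W978.EX.Dilx
import Pool.Agent.W370.EX.MainX
import Pool.Agent.W935.EX.Finx
import Pool.Agent.W588.EX.CHR
import Pool.Agent.W125.EX.SLOWQ
import Pool.Agent.W397.EX.Finj
import Pool.Agent.W721.EX.Finn
import Pool.Agent.W108.EX.Regx
import Pool.Agent.W460.EX.Mainy
import Pool.Agent.W692.EX.Finy
import Pool.Agent.W571.EX.CHRY
import Pool.Agent.W591.EX.Fina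
import Pool.Agent.W571.EX.SPQ

/-!
Project EX (helper251): assembly, part B: logarithmic averages.
-/

set_option autoImplicit false

namespace Pool.Agent.W251.EX

theorem zxA : S_ZX := Pool.Agent.W32.EX.zx Pool.Agent.W174.EC.ptsT Pool.Agent.W499.EC.avg
  Pool.Agent.W499.EC.bdd Pool.Agent.W395.EC.dtb

theorem perxA : S_PERX := Pool.Agent.W490.EX.perx Pool.Agent.W714.EC.bij

theorem mainxA : S_MAINX := Pool.Agent.W370.EX.mainx zxA perxA Pool.Agent.W78.EC.dcpAll
  Pool.Agent.W978.EX.dilx Pool.Agent.W721.ECL.loss Pool.Agent.W899.EC.pcnt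

theorem chrA : S_CHR := Pool.Agent.W588.EX.chr mainxA
  (Pool.Agent.W935.EX.finx Pool.Agent.W305.EC.corr Pool.Agent.W368.EC.scnt) btA

theorem finjA : S_FINJ := Pool.Agent.W397.EX.finj chrA

theorem finnA : S_FINN :=
  Pool.Agent.W721.EX.finn chrA Pool.Agent.W125.EX.slowq Pool.Agent.W368.EC.scnt

end Pool.Agent.W251.EX
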