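import Pool.Agent.W251.EX.AllC0
import Pool.Agent.W251.EX.PW

/-!
Project EX (helper251): assembly, part C: almost all scales.
-/

set_option autoImplicit false

namespace Pool.Agent.W251.EX

theorem mainyB : S_MAINY := mainyA pw

theorem finwB : S_FINW := finwA pw

end Pool.Agent.W251.EX
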