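import Pool.Agent.W251.EX.AllB
import Pool.Agent.W588.EX.DCV
import Pool.Agent.W460.EX.Chrw
import Pool.Agent.W723.EX.FINW
import Pool.Agent.W214.EX.Avx

/-!
Project EX (helper251): assembly, part C: almost all scales (except PW).
-/

set_option autoImplicit false

namespace Pool.Agent.W251.EX

theorem avxA : S_AVX := Pool.Agent.W214.EX.avx zxA perxA Pool.Agent.W78.EC.dcpAll
  Pool.Agent.W721.ECL.loss Pool.Agent.W899.EC.pcnt

theorem mainyA (hpw : S_PW) : S_MAINY := Pool.Agent.W460.EX.mainy avxA Pool.Agent.W108.EX.regx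
  (Pool.Agent.W588.EX.dcv hpw) Pool.Agent.W899.EC.pcnt

theorem finwA (hpw : S_PW) : S_FINW := Pool.Agent.W723.EX.finw
  (Pool.Agent.W460.EXW.chrw (mainyA hpw) Pool.Agent.W305.EC.corr Pool.Agent.W368.EC.scnt btA)

theorem spqA : S_SPQ := Pool.Agent.W571.EX.spq

end Pool.Agent.W251.EX
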