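import Pool.Agent.W251.EX.Defs

/-!
Project EX (helper251), part 2: almost all scales. Definitions and statements. The logarithmic mean
over the scales `X` of the absolute value of the natural mean at scale `X` is small.
-/

set_option autoImplicit false

namespace Pool.Agent.W251.EX

open Finset Filter
open Pool.Agent.H376R2.MR (FK)
open Pool.Agent.W78.GA (Qd nm prim dt ip lat ball pball edge dedge)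
open Pool.Agent.W78.EC (Gi cone cw PQ SP)
open Pool.Agent.W251.GX (Cm)

/-- AVX: the mean over the primes of `PQ Q`, for most scales -/
def S_AVX : Prop := ∀ (N : ℕ) (τ : ℂ) (F₁ F₂ : Gi → ℂ), Pr N τ F₁ F₂ → ∀ q : ℕ, 1 ≤ q →
  (∀ β : Gi, Bt (cl q β (fun z => (F₂ z).re)) ∧ Bt (cl q β (fun z => (F₂ z).im))) →
  ∀ R : Gi → Gi → Prop, Rel q R → ∀ (s₁ s₂ s₃ s₄ : ℝ), 0 < s₁ → s₁ < s₂ → s₂ ≤ 1 → 0 < s₃ →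
  s₃ < s₄ → s₄ ≤ 1 → ∀ ε : ℝ, 0 < ε → ∀ Q₁ : ℕ, ∃ Q₂ N₀ : ℕ, ∀ N' : ℕ, N₀ ≤ N' →
    ∃ Q : ℕ, Q₁ ≤ Q ∧ Q ≤ Q₂ ∧ ∑ X ∈ Icc 1 N', 1 / (X : ℝ) ^ 2 *
      ‖∑ p ∈ PQ Q, ((Real.log p * ((p : ℝ) + 1) : ℝ) : ℂ) *
        AG (g2 F₁ F₂ R) s₁ s₂ s₃ s₄ ((X : ℝ) / p)‖ ≤ ε * Q * Real.log N'

/-- REGX: `AG` varies slowly -/
def S_REGX : Prop := ∀ g : Gi × Gi → ℂ, (∀ e, ‖g e‖ ≤ 1) → ∀ (s₁ s₂ s₃ s₄ : ℝ), 0 < s₁ →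
  s₁ < s₂ → s₂ ≤ 1 → 0 < s₃ → s₃ < s₄ → s₄ ≤ 1 → ∃ C : ℝ, 0 < C ∧
    (∀ X : ℝ, 0 < X → ‖AG g s₁ s₂ s₃ s₄ X‖ ≤ C * X) ∧
    ∀ δ : ℝ, 0 < δ → δ ≤ 1 → ∃ X₀ : ℝ, ∀ X X' : ℝ, X₀ ≤ X → X ≤ X' → X' ≤ (1 + δ) * X →
      ‖AG g s₁ s₂ s₃ s₄ X' - AG g s₁ s₂ s₃ s₄ X‖ ≤ C * δ * X

/-- bounded slowly varying functions -/
structure Sv (a : ℝ → ℂ) (C : ℝ) : Prop where
  bd : ∀ x, ‖a x‖ ≤ C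
  reg : ∀ δ : ℝ, 0 < δ → δ ≤ 1 → ∃ x₀ : ℝ, ∀ x x' : ℝ, x₀ ≤ x → x ≤ x' → x' ≤ (1 + δ) * x →
    ‖a x' - a x‖ ≤ C * δ

/-- mesh sums `∑_{j < m} (μ^(j+1) - μ^j) a(x/μ^j)`, `μ = 2^(1/m)` -/
noncomputable def Tm (m : ℕ) (a : ℝ → ℂ) (x : ℝ) : ℂ := ∑ j ∈ range m,
  (((2 : ℝ) ^ (((j : ℝ) + 1) / m) - (2 : ℝ) ^ ((j : ℝ) / m) : ℝ) : ℂ) *
    a (x / (2 : ℝ) ^ ((j : ℝ) / m))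

/-- PW: sums over primes and mesh sums -/
def S_PW : Prop := ∀ (a : ℝ → ℂ) (C : ℝ), Sv a C → ∀ m : ℕ, 1 ≤ m → ∃ Q₀ : ℕ, ∀ Q : ℕ, Q₀ ≤ Q →
  ∃ x₀ : ℝ, ∀ x : ℝ, x₀ ≤ x →
    ‖∑ p ∈ PQ Q, (Real.log p : ℂ) * a (x / p) - ((Q : ℂ) / 2) * Tm m a (x / Q)‖ ≤
      5 * C / m * Q

/-- DCV: deconvolution -/
def S_DCV : Prop := ∀ (a : ℝ → ℂ) (C : ℝ), Sv a C → (∀ ε : ℝ, 0 < ε → ∀ Q₁ : ℕ,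
  ∃ Q₂ N₀ : ℕ, ∀ N : ℕ, N₀ ≤ N → ∃ Q : ℕ, Q₁ ≤ Q ∧ Q ≤ Q₂ ∧
    ∑ X ∈ Icc 1 N, 1 / (X : ℝ) * ‖∑ p ∈ PQ Q, (Real.log p : ℂ) * a ((X : ℝ) / p)‖ ≤
      ε * Q * Real.log N) →
  ∀ ε : ℝ, 0 < ε → ∃ N₀ : ℕ, ∀ N : ℕ, N₀ ≤ N →
    ∑ X ∈ Icc 1 N, 1 / (X : ℝ) * ‖a X‖ ≤ ε * Real.log N

/-- MAINY: the means are small at almost all scales -/
def S_MAINY : Prop := ∀ (N : ℕ) (τ : ℂ) (F₁ F₂ : Gi → ℂ), Pr N τ F₁ F₂ → ∀ q : ℕ, 1 ≤ q →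
  (∀ β : Gi, Bt (cl q β (fun z => (F₂ z).re)) ∧ Bt (cl q β (fun z => (F₂ z).im))) →
  ∀ R : Gi → Gi → Prop, Rel q R → ∀ (s₁ s₂ s₃ s₄ : ℝ), 0 < s₁ → s₁ < s₂ → s₂ ≤ 1 → 0 < s₃ →
  s₃ < s₄ → s₄ ≤ 1 → ∀ ε : ℝ, 0 < ε → ∃ N₀ : ℕ, ∀ N' : ℕ, N₀ ≤ N' →
    ∑ X ∈ Icc 1 N', 1 / (X : ℝ) ^ 2 * ‖AG (g2 F₁ F₂ R) s₁ s₂ s₃ s₄ X‖ ≤ ε * Real.log N'

/-- FINY: all pairs up to `X` -/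
def S_FINY : Prop := ∀ F : ℕ → ℕ → ℂ, (∀ a b, ‖F a b‖ ≤ 1) →
  (∀ s : ℝ, 0 < s → s < 1 → ∀ ε : ℝ, 0 < ε → ∃ N₀ : ℕ, ∀ N : ℕ, N₀ ≤ N →
    ∑ X ∈ Icc 1 N, 1 / (X : ℝ) ^ 2 * ‖AG (fun e => F (nm e.1) (nm e.2)) s 1 s 1 X‖ ≤
      ε * Real.log N) →
  ∀ ε : ℝ, 0 < ε → ∃ N₀ : ℕ, ∀ N : ℕ, N₀ ≤ N →
    ∑ X ∈ Icc 1 N, 1 / (X : ℝ) ^ 2 * ‖∑ p ∈ SP X, F p.1 p.2‖ ≤ ε * Real.log N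

open scoped Classical in
/-- CHRY: the means of `b₁^Ω(d) b₂^Ω(d')` at almost all scales -/
def S_CHRY : Prop := ∀ (k : ℕ) (b₁ b₂ : ℂ), 1 ≤ k → b₁ ^ k = 1 → b₂ ^ k = 1 →
  (b₁ ≠ 1 ∨ b₂ ≠ 1) → ∀ q a r : ℕ, 1 ≤ q → ∀ ε : ℝ, 0 < ε → ∃ N₀ : ℕ, ∀ N : ℕ, N₀ ≤ N →
    ∑ X ∈ Icc 1 N, 1 / (X : ℝ) ^ 2 * ‖∑ p ∈ (SP X).filter (Cd q a r),
      b₁ ^ ArithmeticFunction.cardFactors p.1 * b₂ ^ ArithmeticFunction.cardFactors p.2‖ ≤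
      ε * Real.log N

open scoped Classical in
/-- the deviation at scale `X` from equidistribution modulo `k` -/
noncomputable def dev (k q a r i j X : ℕ) : ℝ :=
  |(((SP X).filter (fun p => Cd q a r p ∧ ArithmeticFunction.cardFactors p.1 ≡ i [MOD k] ∧
    ArithmeticFunction.cardFactors p.2 ≡ j [MOD k])).card : ℝ) -
    1 / (k : ℝ) ^ 2 * (((SP X).filter (Cd q a r)).card : ℝ)|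

open scoped Classical in
/-- FINA: for almost all scales `X` the residues modulo `k` of `(Ω(d), Ω(d'))` are equidistributed
over the pairs `d, d' ≤ X` -/
def S_FINA : Prop := ∀ k : ℕ, 1 ≤ k → ∀ q a r : ℕ, 1 ≤ q → ∀ i j : ℕ, ∀ ε : ℝ, 0 < ε →
  Tendsto (fun N : ℕ => (∑ X ∈ (Icc 1 N).filter (fun X : ℕ => ε * X < dev k q a r i j X),
    1 / (X : ℝ)) / Real.log N) atTop (nhds 0)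

open scoped Classical in
/-- SPQ: lower bound for the number of pairs -/
def S_SPQ : Prop := ∀ q a : ℕ, 1 ≤ q → ∃ c : ℝ, 0 < c ∧ ∃ X₀ : ℕ, ∀ X : ℕ, X₀ ≤ X →
  c * X ≤ (((SP X).filter (fun p => ∃ n : ℕ, p.1 * p.2 = n ^ 2 + 1 ∧ n ≡ a [MOD q])).card : ℝ)

end Pool.Agent.W251.EX
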