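import Pool.Agent.W251.EX.AllC

/-!
Project EX (helper251): the results in terms of Mathlib only.
-/

set_option autoImplicit false

namespace Pool.Agent.W251.EX

open Finset Filter
open Pool.Agent.W78.EC (SP)

open scoped Classical in
/-- equidistribution in windows, for almost all scales -/
theorem outW (k q : ℕ) (hk : 1 ≤ k) (hq : 1 ≤ q) (a r i j : ℕ) (s₁ s₂ s₃ s₄ ε : ℝ) (hs₁ : 0 ≤ s₁)
    (hs₁₂ : s₁ < s₂) (hs₂ : s₂ ≤ 1) (hs₃ : 0 ≤ s₃) (hs₃₄ : s₃ < s₄) (hs₄ : s₄ ≤ 1) (hε : 0 < ε) :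
    Tendsto (fun N : ℕ => (∑ X ∈ (Icc 1 N).filter (fun X : ℕ => ε * X <
      |(((Icc 1 X ×ˢ Icc 1 X).filter (fun p : ℕ × ℕ =>
          (∃ n : ℕ, p.1 * p.2 = n ^ 2 + 1 ∧ n ≡ a [MOD q] ∧ p.1 ≡ r [MOD q]) ∧
          (s₁ * X < p.1 ∧ p.1 ≤ s₂ * X ∧ s₃ * X < p.2 ∧ p.2 ≤ s₄ * X) ∧
          ArithmeticFunction.cardFactors p.1 ≡ i [MOD k] ∧
          ArithmeticFunction.cardFactors p.2 ≡ j [MOD k])).card : ℝ) -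
        1 / (k : ℝ) ^ 2 * ((Icc 1 X ×ˢ Icc 1 X).filter (fun p : ℕ × ℕ =>
          (∃ n : ℕ, p.1 * p.2 = n ^ 2 + 1 ∧ n ≡ a [MOD q] ∧ p.1 ≡ r [MOD q]) ∧
          (s₁ * X < p.1 ∧ p.1 ≤ s₂ * X ∧ s₃ * X < p.2 ∧ p.2 ≤ s₄ * X))).card|),
      1 / (X : ℝ)) / Real.log N) atTop (nhds 0) := by
  refine (finwB k hk q a r hq i j s₁ s₂ s₃ s₄ hs₁ hs₁₂ hs₂ hs₃ hs₃₄ hs₄ ε hε).congr fun N => ?_
  congr 1
  refine sum_congr ?_ fun _ _ => rfl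
  ext X
  rw [mem_filter, mem_filter]
  refine and_congr_right fun _ => ?_
  have h1 : SW q a r s₁ s₂ s₃ s₄ X = (Icc 1 X ×ˢ Icc 1 X).filter (fun p : ℕ × ℕ =>
      (∃ n : ℕ, p.1 * p.2 = n ^ 2 + 1 ∧ n ≡ a [MOD q] ∧ p.1 ≡ r [MOD q]) ∧
      (s₁ * X < p.1 ∧ p.1 ≤ s₂ * X ∧ s₃ * X < p.2 ∧ p.2 ≤ s₄ * X)) := by
    ext p
    unfold SW SP Cd
    simp only [mem_filter]
    constructor
    · rintro ⟨⟨h2, _⟩, h3, h4⟩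
      exact ⟨h2, h3, h4⟩
    · rintro ⟨h2, ⟨n, h3⟩, h4⟩
      exact ⟨⟨h2, n, h3.1⟩, ⟨n, h3⟩, h4⟩
  have h2 : (SW q a r s₁ s₂ s₃ s₄ X).filter (fun p =>
      ArithmeticFunction.cardFactors p.1 ≡ i [MOD k] ∧
      ArithmeticFunction.cardFactors p.2 ≡ j [MOD k]) =
      (Icc 1 X ×ˢ Icc 1 X).filter (fun p : ℕ × ℕ =>
      (∃ n : ℕ, p.1 * p.2 = n ^ 2 + 1 ∧ n ≡ a [MOD q] ∧ p.1 ≡ r [MOD q]) ∧
      (s₁ * X < p.1 ∧ p.1 ≤ s₂ * X ∧ s₃ * X < p.2 ∧ p.2 ≤ s₄ * X) ∧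
      ArithmeticFunction.cardFactors p.1 ≡ i [MOD k] ∧
      ArithmeticFunction.cardFactors p.2 ≡ j [MOD k]) := by
    rw [h1, filter_filter]
    refine filter_congr fun p _ => ?_
    tauto
  unfold devW
  rw [h2, h1]

open scoped Classical in
/-- lower bound for the number of pairs -/
theorem outP (q a : ℕ) (hq : 1 ≤ q) : ∃ c : ℝ, 0 < c ∧ ∃ X₀ : ℕ, ∀ X : ℕ, X₀ ≤ X →
    c * X ≤ (((Icc 1 X ×ˢ Icc 1 X).filter (fun p : ℕ × ℕ =>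
      ∃ n : ℕ, p.1 * p.2 = n ^ 2 + 1 ∧ n ≡ a [MOD q])).card : ℝ) := by
  obtain ⟨c, hc, X₀, h⟩ := spqA q a hq
  refine ⟨c, hc, X₀, fun X hX => (h X hX).trans (le_of_eq ?_)⟩
  congr 2
  unfold SP
  rw [filter_filter]
  refine filter_congr fun p _ => ?_
  constructor
  · exact fun h2 => h2.2
  · rintro ⟨n, h2⟩
    exact ⟨⟨n, h2.1⟩, n, h2⟩

end Pool.Agent.W251.EX
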