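import Pool.Agent.W251.EX.Out
import Pool.Agent.W251.EX.Defs4

/-!
Project EX (helper251): weighted sums of the Liouville function over `n^2+1` in progressions.
-/

set_option autoImplicit false

namespace Pool.Agent.W251.EX

open Finset Filter
open Pool.Agent.W78.EC (SP)

theorem chrwB : S_CHRW :=
  Pool.Agent.W460.EXW.chrw mainyB Pool.Agent.W305.EC.corr Pool.Agent.W368.EC.scnt btA

/-- from mean values to exceptional scales -/
theorem tt : S_TT := by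
  intro A hA ε hε
  rw [Metric.tendsto_atTop]
  intro δ hδ
  obtain ⟨N₀, hN₀⟩ := hA (ε * δ / 2) (by positivity)
  refine ⟨max N₀ 3, fun N hN => ?_⟩
  have hN3 : 3 ≤ N := (le_max_right _ _).trans hN
  have hlog : 0 < Real.log N := Real.log_pos (by
    have : (3 : ℝ) ≤ N := by exact_mod_cast hN3
    linarith)
  have hS0 : 0 ≤ ∑ X ∈ (Icc 1 N).filter (fun X : ℕ => ε * X < ‖A X‖), 1 / (X : ℝ) :=
    Finset.sum_nonneg fun X _ => by positivity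
  rw [Real.dist_eq, sub_zero, abs_of_nonneg (div_nonneg hS0 hlog.le), div_lt_iff₀ hlog]
  have h1 : ∑ X ∈ (Icc 1 N).filter (fun X : ℕ => ε * X < ‖A X‖), 1 / (X : ℝ) ≤
      ∑ X ∈ Icc 1 N, 1 / ε * (1 / (X : ℝ) ^ 2 * ‖A X‖) := by
    calc ∑ X ∈ (Icc 1 N).filter (fun X : ℕ => ε * X < ‖A X‖), 1 / (X : ℝ)
        ≤ ∑ X ∈ (Icc 1 N).filter (fun X : ℕ => ε * X < ‖A X‖),
          1 / ε * (1 / (X : ℝ) ^ 2 * ‖A X‖) := by
          refine Finset.sum_le_sum fun X hX => ?_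
          obtain ⟨hX1, hX2⟩ := Finset.mem_filter.1 hX
          have hX0 : (0 : ℝ) < X := by
            have := (Finset.mem_Icc.1 hX1).1
            exact_mod_cast this
          have e1 : 1 / (X : ℝ) = 1 / ε * (1 / (X : ℝ) ^ 2 * (ε * X)) := by
            field_simp
          rw [e1]
          refine mul_le_mul_of_nonneg_left ?_ (by positivity)
          exact mul_le_mul_of_nonneg_left hX2.le (by positivity)
      _ ≤ ∑ X ∈ Icc 1 N, 1 / ε * (1 / (X : ℝ) ^ 2 * ‖A X‖) := by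
          refine Finset.sum_le_sum_of_subset_of_nonneg (Finset.filter_subset _ _) fun X _ _ => ?_
          positivity
  have h2 := hN₀ N ((le_max_left _ _).trans hN)
  calc ∑ X ∈ (Icc 1 N).filter (fun X : ℕ => ε * X < ‖A X‖), 1 / (X : ℝ)
      ≤ ∑ X ∈ Icc 1 N, 1 / ε * (1 / (X : ℝ) ^ 2 * ‖A X‖) := h1
    _ = 1 / ε * ∑ X ∈ Icc 1 N, 1 / (X : ℝ) ^ 2 * ‖A X‖ := by rw [Finset.mul_sum]
    _ ≤ 1 / ε * (ε * δ / 2 * Real.log N) := mul_le_mul_of_nonneg_left h2 (by positivity)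
    _ = δ / 2 * Real.log N := by field_simp
    _ < δ * Real.log N := by
        have : 0 < δ * Real.log N := mul_pos hδ hlog
        linarith

open scoped Classical in
/-- number of factorisations of `n^2+1` in a window and a class -/
noncomputable def wD (q r : ℕ) (s₁ s₂ s₃ s₄ : ℝ) (X n : ℕ) : ℕ :=
  ((n ^ 2 + 1).divisors.filter (fun d : ℕ => d ≡ r [MOD q] ∧ s₁ * X < (d : ℝ) ∧
    (d : ℝ) ≤ s₂ * X ∧ s₃ * X < (((n ^ 2 + 1) / d : ℕ) : ℝ) ∧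
    (((n ^ 2 + 1) / d : ℕ) : ℝ) ≤ s₄ * X)).card

open scoped Classical in
theorem conv {A : Type} [AddCommMonoid A] (G : ℕ → ℕ → A) (q a r : ℕ) (s₁ s₂ s₃ s₄ : ℝ)
    (h2 : s₂ ≤ 1) (h4 : s₄ ≤ 1) (X : ℕ) :
    ∑ p ∈ SW q a r s₁ s₂ s₃ s₄ X, G p.1 p.2 =
      ∑ n ∈ (range (X + 1)).filter (fun n => n ≡ a [MOD q]), ∑ d ∈ (n ^ 2 + 1).divisors.filter
        (fun d : ℕ => d ≡ r [MOD q] ∧ s₁ * X < (d : ℝ) ∧
        (d : ℝ) ≤ s₂ * X ∧ s₃ * X < (((n ^ 2 + 1) / d : ℕ) : ℝ) ∧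
        (((n ^ 2 + 1) / d : ℕ) : ℝ) ≤ s₄ * X), G d ((n ^ 2 + 1) / d) := by
  rw [Finset.sum_sigma']
  symm
  refine Finset.sum_nbij' (fun x => (x.2, (x.1 ^ 2 + 1) / x.2))
    (fun p => ⟨Nat.sqrt (p.1 * p.2 - 1), p.1⟩) ?_ ?_ ?_ ?_ ?_
  · rintro ⟨n, d⟩ hx
    simp only [mem_sigma, mem_filter, mem_range, Nat.mem_divisors] at hx
    obtain ⟨⟨hn, hna⟩, ⟨hd, _⟩, hdr, w1, w2, w3, w4⟩ := hx
    have hdd : d * ((n ^ 2 + 1) / d) = n ^ 2 + 1 := Nat.mul_div_cancel' hd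
    have hd0 : 0 < d := Nat.pos_of_dvd_of_pos hd (by positivity)
    have hd1 : 0 < (n ^ 2 + 1) / d := Nat.div_pos (Nat.le_of_dvd (by positivity) hd) hd0
    have hX : (0 : ℝ) ≤ X := Nat.cast_nonneg X
    have g1 : d ≤ X := by
      have : (d : ℝ) ≤ X := w2.trans (by nlinarith)
      exact_mod_cast this
    have g2 : (n ^ 2 + 1) / d ≤ X := by
      have : (((n ^ 2 + 1) / d : ℕ) : ℝ) ≤ X := w4.trans (by nlinarith)
      exact_mod_cast this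
    unfold SW SP Cd
    simp only [mem_filter, mem_product, mem_Icc]
    exact ⟨⟨⟨⟨hd0, g1⟩, hd1, g2⟩, n, hdd⟩, ⟨n, hdd, hna, hdr⟩, w1, w2, w3, w4⟩
  · rintro ⟨d, d'⟩ hp
    unfold SW SP Cd at hp
    simp only [mem_filter, mem_product, mem_Icc] at hp
    obtain ⟨⟨⟨⟨h5, h6⟩, h7, h8⟩, _⟩, ⟨n, hn, hna, hdr⟩, w1, w2, w3, w4⟩ := hp
    have hsq : Nat.sqrt (d * d' - 1) = n := by
      rw [hn, Nat.add_sub_cancel]
      exact Nat.sqrt_eq' n
    have hdiv : (n ^ 2 + 1) / d = d' := by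
      rw [← hn]
      exact Nat.mul_div_cancel_left d' h5
    have hnX : n ≤ X := by
      by_contra h
      push Not at h
      have : d * d' ≤ X * X := Nat.mul_le_mul h6 h8
      nlinarith
    simp only [mem_sigma, mem_filter, mem_range, Nat.mem_divisors, hsq]
    refine ⟨⟨Nat.lt_succ_of_le hnX, hna⟩, ⟨⟨d', hn.symm⟩, by positivity⟩, hdr, w1, w2, ?_, ?_⟩
    · rw [hdiv]; exact w3
    · rw [hdiv]; exact w4
  · rintro ⟨n, d⟩ hx
    simp only [mem_sigma, mem_filter, mem_range, Nat.mem_divisors] at hx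
    obtain ⟨⟨hn, hna⟩, ⟨hd, _⟩, hdr, w1, w2, w3, w4⟩ := hx
    have hdd : d * ((n ^ 2 + 1) / d) = n ^ 2 + 1 := Nat.mul_div_cancel' hd
    simp only
    rw [hdd, Nat.add_sub_cancel, Nat.sqrt_eq' n]
  · rintro ⟨d, d'⟩ hp
    unfold SW SP Cd at hp
    simp only [mem_filter, mem_product, mem_Icc] at hp
    obtain ⟨⟨⟨⟨h5, h6⟩, h7, h8⟩, _⟩, ⟨n, hn, hna, hdr⟩, w1, w2, w3, w4⟩ := hp
    have hsq : Nat.sqrt (d * d' - 1) = n := by
      rw [hn, Nat.add_sub_cancel]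
      exact Nat.sqrt_eq' n
    have hdiv : (n ^ 2 + 1) / d = d' := by
      rw [← hn]
      exact Nat.mul_div_cancel_left d' h5
    simp only [hsq, hdiv]
  · rintro ⟨n, d⟩ _
    rfl

open scoped Classical in
/-- weighted sums of `λ(n^2+1)` over `n ≡ a mod q` are small at almost all scales -/
theorem outL (q : ℕ) (hq : 1 ≤ q) (a r : ℕ) (s₁ s₂ s₃ s₄ ε : ℝ) (hs₁ : 0 ≤ s₁)
    (hs₁₂ : s₁ < s₂) (hs₂ : s₂ ≤ 1) (hs₃ : 0 ≤ s₃) (hs₃₄ : s₃ < s₄) (hs₄ : s₄ ≤ 1) (hε : 0 < ε) :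
    Tendsto (fun N : ℕ => (∑ X ∈ (Icc 1 N).filter (fun X : ℕ => ε * X <
      |∑ n ∈ (range (X + 1)).filter (fun n => n ≡ a [MOD q]),
        (-1 : ℝ) ^ ArithmeticFunction.cardFactors (n ^ 2 + 1) *
        (((n ^ 2 + 1).divisors.filter (fun d : ℕ => d ≡ r [MOD q] ∧ s₁ * X < (d : ℝ) ∧
          (d : ℝ) ≤ s₂ * X ∧ s₃ * X < (((n ^ 2 + 1) / d : ℕ) : ℝ) ∧
          (((n ^ 2 + 1) / d : ℕ) : ℝ) ≤ s₄ * X)).card : ℝ)|), 1 / (X : ℝ)) / Real.log N)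
      atTop (nhds 0) := by
  have h := tt (fun X => ∑ p ∈ SW q a r s₁ s₂ s₃ s₄ X,
    (-1 : ℂ) ^ ArithmeticFunction.cardFactors p.1 * (-1) ^ ArithmeticFunction.cardFactors p.2)
    (fun ε' hε' => chrwB 2 (-1) (-1) (by norm_num) (by norm_num) (by norm_num)
      (Or.inl (by norm_num)) q a r hq s₁ s₂ s₃ s₄ hs₁ hs₁₂ hs₂ hs₃ hs₃₄ hs₄ ε' hε') ε hε
  refine h.congr fun N => ?_
  congr 1
  refine sum_congr ?_ fun _ _ => rfl
  ext X
  rw [mem_filter, mem_filter]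
  refine and_congr_right fun _ => ?_
  have e1 : ∑ p ∈ SW q a r s₁ s₂ s₃ s₄ X,
      (-1 : ℂ) ^ ArithmeticFunction.cardFactors p.1 * (-1) ^ ArithmeticFunction.cardFactors p.2 =
      ((∑ n ∈ (range (X + 1)).filter (fun n => n ≡ a [MOD q]),
        (-1 : ℝ) ^ ArithmeticFunction.cardFactors (n ^ 2 + 1) *
        (((n ^ 2 + 1).divisors.filter (fun d : ℕ => d ≡ r [MOD q] ∧ s₁ * X < (d : ℝ) ∧
          (d : ℝ) ≤ s₂ * X ∧ s₃ * X < (((n ^ 2 + 1) / d : ℕ) : ℝ) ∧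
          (((n ^ 2 + 1) / d : ℕ) : ℝ) ≤ s₄ * X)).card : ℝ) : ℝ) : ℂ) := by
    rw [conv (fun x y => (-1 : ℂ) ^ ArithmeticFunction.cardFactors x *
      (-1) ^ ArithmeticFunction.cardFactors y) q a r s₁ s₂ s₃ s₄ hs₂ hs₄ X, Complex.ofReal_sum]
    refine sum_congr rfl fun n _ => ?_
    have e2 : ∀ d ∈ (n ^ 2 + 1).divisors.filter (fun d : ℕ => d ≡ r [MOD q] ∧ s₁ * X < (d : ℝ) ∧
          (d : ℝ) ≤ s₂ * X ∧ s₃ * X < (((n ^ 2 + 1) / d : ℕ) : ℝ) ∧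
          (((n ^ 2 + 1) / d : ℕ) : ℝ) ≤ s₄ * X),
        (-1 : ℂ) ^ ArithmeticFunction.cardFactors d *
          (-1) ^ ArithmeticFunction.cardFactors ((n ^ 2 + 1) / d) =
        (-1) ^ ArithmeticFunction.cardFactors (n ^ 2 + 1) := by
      intro d hd
      have hd1 := (Nat.mem_divisors.1 (mem_filter.1 hd).1).1
      have hdd : d * ((n ^ 2 + 1) / d) = n ^ 2 + 1 := Nat.mul_div_cancel' hd1
      have hd0 : d ≠ 0 := fun h0 => by
        rw [h0, Nat.zero_mul] at hdd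
        exact absurd hdd (by positivity)
      have hd2 : (n ^ 2 + 1) / d ≠ 0 := fun h0 => by
        rw [h0, Nat.mul_zero] at hdd
        exact absurd hdd (by positivity)
      rw [← pow_add, ← ArithmeticFunction.cardFactors_mul hd0 hd2, hdd]
    rw [sum_congr rfl e2, sum_const, nsmul_eq_mul]
    push_cast
    ring
  rw [e1, Complex.norm_real, Real.norm_eq_abs]

open scoped Classical in
/-- lower bound for the total weight -/
theorem outN (q a : ℕ) (hq : 1 ≤ q) : ∃ c : ℝ, 0 < c ∧ ∃ X₀ : ℕ, ∀ X : ℕ, X₀ ≤ X →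
    c * X ≤ ∑ n ∈ (range (X + 1)).filter (fun n => n ≡ a [MOD q]),
      (((n ^ 2 + 1).divisors.filter (fun d : ℕ => d ≤ X ∧ (n ^ 2 + 1) / d ≤ X)).card : ℝ) := by
  obtain ⟨c, hc, X₀, h⟩ := outP q a hq
  refine ⟨c, hc, X₀, fun X hX => (h X hX).trans (le_of_eq ?_)⟩
  rw [← Nat.cast_sum]
  congr 1
  rw [Finset.card_eq_sum_ones]
  simp_rw [Finset.card_eq_sum_ones]
  rw [Finset.sum_sigma']
  symm
  refine Finset.sum_nbij' (fun x => (x.2, (x.1 ^ 2 + 1) / x.2))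
    (fun p => ⟨Nat.sqrt (p.1 * p.2 - 1), p.1⟩) ?_ ?_ ?_ ?_ ?_
  · rintro ⟨n, d⟩ hx
    simp only [mem_sigma, mem_filter, mem_range, Nat.mem_divisors] at hx
    obtain ⟨⟨hn, hna⟩, ⟨hd, _⟩, w1, w2⟩ := hx
    have hdd : d * ((n ^ 2 + 1) / d) = n ^ 2 + 1 := Nat.mul_div_cancel' hd
    have hd0 : 0 < d := Nat.pos_of_dvd_of_pos hd (by positivity)
    have hd1 : 0 < (n ^ 2 + 1) / d := Nat.div_pos (Nat.le_of_dvd (by positivity) hd) hd0
    simp only [mem_filter, mem_product, mem_Icc]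
    exact ⟨⟨⟨hd0, w1⟩, hd1, w2⟩, n, hdd, hna⟩
  · rintro ⟨d, d'⟩ hp
    simp only [mem_filter, mem_product, mem_Icc] at hp
    obtain ⟨⟨⟨h5, h6⟩, h7, h8⟩, n, hn, hna⟩ := hp
    have hsq : Nat.sqrt (d * d' - 1) = n := by
      rw [hn, Nat.add_sub_cancel]
      exact Nat.sqrt_eq' n
    have hdiv : (n ^ 2 + 1) / d = d' := by
      rw [← hn]
      exact Nat.mul_div_cancel_left d' h5
    have hnX : n ≤ X := by
      by_contra h
      push Not at h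
      have : d * d' ≤ X * X := Nat.mul_le_mul h6 h8
      nlinarith
    simp only [mem_sigma, mem_filter, mem_range, Nat.mem_divisors, hsq]
    refine ⟨⟨Nat.lt_succ_of_le hnX, hna⟩, ⟨⟨d', hn.symm⟩, by positivity⟩, h6, ?_⟩
    rw [hdiv]; exact h8
  · rintro ⟨n, d⟩ hx
    simp only [mem_sigma, mem_filter, mem_range, Nat.mem_divisors] at hx
    obtain ⟨⟨hn, hna⟩, ⟨hd, _⟩, w1, w2⟩ := hx
    have hdd : d * ((n ^ 2 + 1) / d) = n ^ 2 + 1 := Nat.mul_div_cancel' hd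
    simp only
    rw [hdd, Nat.add_sub_cancel, Nat.sqrt_eq' n]
  · rintro ⟨d, d'⟩ hp
    simp only [mem_filter, mem_product, mem_Icc] at hp
    obtain ⟨⟨⟨h5, h6⟩, h7, h8⟩, n, hn, hna⟩ := hp
    have hsq : Nat.sqrt (d * d' - 1) = n := by
      rw [hn, Nat.add_sub_cancel]
      exact Nat.sqrt_eq' n
    have hdiv : (n ^ 2 + 1) / d = d' := by
      rw [← hn]
      exact Nat.mul_div_cancel_left d' h5
    simp only [hsq, hdiv]
  · rintro ⟨n, d⟩ _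
    rfl

end Pool.Agent.W251.EX
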