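import Pool.Agent.W251.EX.Out2
import Pool.Agent.W924.EX.TW
import Pool.Agent.W67.EX.TS

/-!
Project EX (helper251): general pairs of completely multiplicative functions.
-/

set_option autoImplicit false

namespace Pool.Agent.W251.EX

open Finset Filter
open Pool.Agent.W78.GA (Qd nm ball mem_ball)
open Pool.Agent.W78.EC (Gi SP)

theorem btaA : S_BTA := fun N F hF q β hq => bt_cl mrsxA
  (Pool.Agent.W672.EX.btmx Pool.Agent.W683.EC.jb Pool.Agent.W683.EC.jv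
      Pool.Agent.W395.EC.ln Pool.Agent.W395.EC.dtb)
    (Pool.Agent.W940.EX.btx Pool.Agent.W78.EC.gg0All Pool.Agent.W395.EC.ln
      Pool.Agent.W395.EC.dtb) hF hq β

theorem twA : S_TW :=
  Pool.Agent.W924.EX.tw mainyB Pool.Agent.W305.EC.corr Pool.Agent.W368.EC.scnt btaA

/-- the normalisation `f 0 = 1` -/
def n0 (f : ℕ → ℂ) (n : ℕ) : ℂ := if n = 0 then 1 else f n

lemma n0_ne (f : ℕ → ℂ) {n : ℕ} (h : n ≠ 0) : n0 f n = f n := if_neg h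

lemma fg_n0 {N : ℕ} {τ : ℂ} {f g : ℕ → ℂ} (hN : 1 ≤ N)
    (mf : ∀ m n : ℕ, m ≠ 0 → n ≠ 0 → f (m * n) = f m * f n)
    (mg : ∀ m n : ℕ, m ≠ 0 → n ≠ 0 → g (m * n) = g m * g n)
    (pf : ∀ n : ℕ, n ≠ 0 → f n ^ N = 1) (pg : ∀ n : ℕ, n ≠ 0 → g n ^ N = 1)
    (tw : ∀ p : ℕ, p.Prime → p % 4 ≠ 3 → f p * g p = τ) : FG N τ (n0 f) (n0 g) where
  pos := hN
  mf := fun m n hm hn => by
    rw [n0_ne f hm, n0_ne f hn, n0_ne f (Nat.mul_ne_zero hm hn), mf m n hm hn]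
  mg := fun m n hm hn => by
    rw [n0_ne g hm, n0_ne g hn, n0_ne g (Nat.mul_ne_zero hm hn), mg m n hm hn]
  pf := fun n => by
    by_cases h : n = 0
    · rw [n0, if_pos h, one_pow]
    · rw [n0_ne f h, pf n h]
  pg := fun n => by
    by_cases h : n = 0
    · rw [n0, if_pos h, one_pow]
    · rw [n0_ne g h, pg n h]
  tw := fun p hp h4 => by rw [n0_ne f hp.ne_zero, n0_ne g hp.ne_zero, tw p hp h4]

lemma nmz (z : Gi) : (nm z : ℤ) = z.re ^ 2 + z.im ^ 2 := by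
  unfold nm
  rw [Int.natCast_natAbs]
  have : z.re ^ 2 + 0 * z.re * z.im + 1 * z.im ^ 2 = z.re ^ 2 + z.im ^ 2 := by ring
  rw [this, abs_of_nonneg (by positivity)]

/-- aperiodicity from mean values over pairs of integers -/
lemma apd_of {N : ℕ} {g : ℕ → ℂ} (hN : 1 ≤ N)
    (mg : ∀ m n : ℕ, m ≠ 0 → n ≠ 0 → g (m * n) = g m * g n)
    (pg : ∀ n : ℕ, n ≠ 0 → g n ^ N = 1)
    (hap : ∀ (M : ℕ) (u v : ℤ), 1 ≤ M → Tendsto (fun X : ℕ =>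
      (∑ z ∈ (Icc (-(X : ℤ)) X ×ˢ Icc (-(X : ℤ)) X).filter (fun z : ℤ × ℤ =>
        z.1 ≡ u [ZMOD M] ∧ z.2 ≡ v [ZMOD M] ∧ 1 ≤ z.1 ^ 2 + z.2 ^ 2 ∧ z.1 ^ 2 + z.2 ^ 2 ≤ X),
        g (z.1 ^ 2 + z.2 ^ 2).toNat) / (X : ℂ)) atTop (nhds 0)) :
    Apd N (fun z => n0 g (nm z)) where
  cm := Pool.Agent.W924.EX.fcm N (n0 g) hN
    (fun m n hm hn => by
      rw [n0_ne g hm, n0_ne g hn, n0_ne g (Nat.mul_ne_zero hm hn), mg m n hm hn])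
    (fun n => by
      by_cases h : n = 0
      · rw [n0, if_pos h, one_pow]
      · rw [n0_ne g h, pg n h])
  mean := by
    classical
    intro M r₁ r₂ hM ε hε
    obtain ⟨X₁, hX₁⟩ := Metric.tendsto_atTop.1 (hap M r₁ r₂ hM) ε hε
    refine ⟨(X₁ : ℝ) + 1, fun X hX => ?_⟩
    have hX0 : (0 : ℝ) ≤ X := by
      have : (0 : ℝ) ≤ X₁ := Nat.cast_nonneg _
      linarith
    obtain ⟨Y, hY⟩ : ∃ Y : ℕ, Y = ⌊X⌋₊ := ⟨_, rfl⟩
    have hY1 : X₁ ≤ Y := by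
      rw [hY]
      exact Nat.le_floor (by linarith)
    have hYX : (Y : ℝ) ≤ X := by rw [hY]; exact Nat.floor_le hX0
    have hYpos : 1 ≤ Y := by
      rw [hY]
      exact Nat.le_floor (by
        have : (0 : ℝ) ≤ X₁ := Nat.cast_nonneg _
        push_cast
        linarith)
    have h1 := hX₁ Y hY1
    rw [dist_zero_right, norm_div, Complex.norm_natCast,
      div_lt_iff₀ (by exact_mod_cast hYpos)] at h1
    have h2 : ∑ z ∈ (ball 0 1 X).filter (fun z => (M : ℤ) ∣ z.re - r₁ ∧ (M : ℤ) ∣ z.im - r₂),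
        n0 g (nm z) = ∑ z ∈ (Icc (-(Y : ℤ)) Y ×ˢ Icc (-(Y : ℤ)) Y).filter (fun z : ℤ × ℤ =>
        z.1 ≡ r₁ [ZMOD M] ∧ z.2 ≡ r₂ [ZMOD M] ∧ 1 ≤ z.1 ^ 2 + z.2 ^ 2 ∧ z.1 ^ 2 + z.2 ^ 2 ≤ Y),
        g (z.1 ^ 2 + z.2 ^ 2).toNat := by
      refine sum_nbij' (fun z : Gi => (z.re, z.im)) (fun p => (⟨p.1, p.2⟩ : Gi)) ?_ ?_ ?_ ?_ ?_
      · intro z hz
        rw [mem_filter, mem_ball (by norm_num)] at hz
        obtain ⟨⟨h3, h4⟩, h5, h6⟩ := hz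
        have h7 := nmz z
        have h8 : nm z ≤ Y := by rw [hY]; exact Nat.le_floor h4
        have h9 : z.re ^ 2 + z.im ^ 2 ≤ Y := by rw [← h7]; exact_mod_cast h8
        have h10 : 1 ≤ z.re ^ 2 + z.im ^ 2 := by rw [← h7]; exact_mod_cast h3
        simp only [mem_filter, mem_product, mem_Icc]
        refine ⟨⟨⟨?_, ?_⟩, ?_, ?_⟩, ?_, ?_, h10, h9⟩
        · nlinarith [sq_nonneg (z.re + 1), sq_nonneg z.im]
        · nlinarith [sq_nonneg (z.re - 1), sq_nonneg z.im]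
        · nlinarith [sq_nonneg (z.im + 1), sq_nonneg z.re]
        · nlinarith [sq_nonneg (z.im - 1), sq_nonneg z.re]
        · exact (Int.modEq_iff_dvd.2 h5).symm
        · exact (Int.modEq_iff_dvd.2 h6).symm
      · intro p hp
        simp only [mem_filter, mem_product, mem_Icc] at hp
        obtain ⟨_, h3, h4, h5, h6⟩ := hp
        have h7 : (nm (⟨p.1, p.2⟩ : Gi) : ℤ) = p.1 ^ 2 + p.2 ^ 2 := nmz _
        rw [mem_filter, mem_ball (by norm_num)]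
        refine ⟨⟨?_, ?_⟩, ?_, ?_⟩
        · have : (1 : ℤ) ≤ nm (⟨p.1, p.2⟩ : Gi) := by rw [h7]; exact h5
          exact_mod_cast this
        · have : (nm (⟨p.1, p.2⟩ : Gi) : ℤ) ≤ Y := by rw [h7]; exact h6
          have h8 : nm (⟨p.1, p.2⟩ : Gi) ≤ Y := by exact_mod_cast this
          exact le_trans (by exact_mod_cast h8) hYX
        · exact Int.modEq_iff_dvd.1 h3.symm
        · exact Int.modEq_iff_dvd.1 h4.symm
      · intro z _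
        rfl
      · intro p _
        rfl
      · intro z hz
        rw [mem_filter, mem_ball (by norm_num)] at hz
        have h3 : nm z ≠ 0 := by omega
        rw [n0_ne g h3, ← nmz z, Int.toNat_natCast]
    rw [h2]
    exact h1.le.trans (mul_le_mul_of_nonneg_left hYX hε.le)

open scoped Classical in
/-- the general theorem; `sf` stands for the condition that `d d'` is squarefree -/
theorem outE (hTS : S_TS) (N : ℕ) (τ : ℂ) (f g : ℕ → ℂ) (hN : 1 ≤ N)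
    (mf : ∀ m n : ℕ, m ≠ 0 → n ≠ 0 → f (m * n) = f m * f n)
    (mg : ∀ m n : ℕ, m ≠ 0 → n ≠ 0 → g (m * n) = g m * g n)
    (pf : ∀ n : ℕ, n ≠ 0 → f n ^ N = 1) (pg : ∀ n : ℕ, n ≠ 0 → g n ^ N = 1)
    (tw : ∀ p : ℕ, p.Prime → p % 4 ≠ 3 → f p * g p = τ)
    (hap : ∀ (M : ℕ) (u v : ℤ), 1 ≤ M → Tendsto (fun X : ℕ =>
      (∑ z ∈ (Icc (-(X : ℤ)) X ×ˢ Icc (-(X : ℤ)) X).filter (fun z : ℤ × ℤ =>
        z.1 ≡ u [ZMOD M] ∧ z.2 ≡ v [ZMOD M] ∧ 1 ≤ z.1 ^ 2 + z.2 ^ 2 ∧ z.1 ^ 2 + z.2 ^ 2 ≤ X),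
        g (z.1 ^ 2 + z.2 ^ 2).toNat) / (X : ℂ)) atTop (nhds 0))
    (q : ℕ) (hq : 1 ≤ q) (a r : ℕ) (sf : Prop) (s₁ s₂ s₃ s₄ ε : ℝ) (hs₁ : 0 ≤ s₁)
    (hs₁₂ : s₁ < s₂) (hs₂ : s₂ ≤ 1) (hs₃ : 0 ≤ s₃) (hs₃₄ : s₃ < s₄) (hs₄ : s₄ ≤ 1) (hε : 0 < ε) :
    Tendsto (fun N' : ℕ => (∑ X ∈ (Icc 1 N').filter (fun X : ℕ => ε * X <
      ‖∑ p ∈ (Icc 1 X ×ˢ Icc 1 X).filter (fun p : ℕ × ℕ =>
          (∃ n : ℕ, p.1 * p.2 = n ^ 2 + 1 ∧ n ≡ a [MOD q] ∧ p.1 ≡ r [MOD q]) ∧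
          (s₁ * X < p.1 ∧ p.1 ≤ s₂ * X ∧ s₃ * X < p.2 ∧ p.2 ≤ s₄ * X) ∧
          (sf → Squarefree (p.1 * p.2))), f p.1 * g p.2‖), 1 / (X : ℝ)) / Real.log N')
      atTop (nhds 0) := by
  have hFG := fg_n0 hN mf mg pf pg tw
  have hA := apd_of hN mg pg hap
  have key : ∀ ε : ℝ, 0 < ε → ∃ N₀ : ℕ, ∀ N' : ℕ, N₀ ≤ N' → ∑ X ∈ Icc 1 N', 1 / (X : ℝ) ^ 2 *
      ‖∑ p ∈ (Icc 1 X ×ˢ Icc 1 X).filter (fun p : ℕ × ℕ =>
          (∃ n : ℕ, p.1 * p.2 = n ^ 2 + 1 ∧ n ≡ a [MOD q] ∧ p.1 ≡ r [MOD q]) ∧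
          (s₁ * X < p.1 ∧ p.1 ≤ s₂ * X ∧ s₃ * X < p.2 ∧ p.2 ≤ s₄ * X) ∧
          (sf → Squarefree (p.1 * p.2))), f p.1 * g p.2‖ ≤ ε * Real.log N' := by
    intro ε hε
    by_cases hsf : sf
    · obtain ⟨N₀, h⟩ := hTS N τ (n0 f) (n0 g) hFG (Or.inr hA) q a r hq s₁ s₂ s₃ s₄ hs₁ hs₁₂ hs₂
        hs₃ hs₃₄ hs₄ ε hε
      refine ⟨N₀, fun N' hN' => le_trans (le_of_eq (sum_congr rfl fun X _ => ?_)) (h N' hN')⟩
      congr 2
      have e1 : (Icc 1 X ×ˢ Icc 1 X).filter (fun p : ℕ × ℕ =>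
          (∃ n : ℕ, p.1 * p.2 = n ^ 2 + 1 ∧ n ≡ a [MOD q] ∧ p.1 ≡ r [MOD q]) ∧
          (s₁ * X < p.1 ∧ p.1 ≤ s₂ * X ∧ s₃ * X < p.2 ∧ p.2 ≤ s₄ * X) ∧
          (sf → Squarefree (p.1 * p.2))) =
          (SW q a r s₁ s₂ s₃ s₄ X).filter (fun p => Squarefree (p.1 * p.2)) := by
        ext p
        unfold SW SP Cd
        simp only [mem_filter]
        constructor
        · rintro ⟨h2, ⟨n, h3⟩, h4, h5⟩
          exact ⟨⟨⟨h2, n, h3.1⟩, ⟨n, h3⟩, h4⟩, h5 hsf⟩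
        · rintro ⟨⟨⟨h2, _⟩, h3, h4⟩, h5⟩
          exact ⟨h2, h3, h4, fun _ => h5⟩
      rw [e1]
      refine sum_congr rfl fun p hp => ?_
      have hp1 := (mem_filter.1 hp).1
      unfold SW SP at hp1
      simp only [mem_filter, mem_product, mem_Icc] at hp1
      rw [n0_ne f (by omega), n0_ne g (by omega)]
    · obtain ⟨N₀, h⟩ := twA N τ (n0 f) (n0 g) hFG (Or.inr hA) q a r 0 hq s₁ s₂ s₃ s₄ hs₁ hs₁₂ hs₂
        hs₃ hs₃₄ hs₄ ε hε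
      refine ⟨N₀, fun N' hN' => le_trans (le_of_eq (sum_congr rfl fun X _ => ?_)) (h N' hN')⟩
      congr 2
      have e1 : (Icc 1 X ×ˢ Icc 1 X).filter (fun p : ℕ × ℕ =>
          (∃ n : ℕ, p.1 * p.2 = n ^ 2 + 1 ∧ n ≡ a [MOD q] ∧ p.1 ≡ r [MOD q]) ∧
          (s₁ * X < p.1 ∧ p.1 ≤ s₂ * X ∧ s₃ * X < p.2 ∧ p.2 ≤ s₄ * X) ∧
          (sf → Squarefree (p.1 * p.2))) =
          (SW q a r s₁ s₂ s₃ s₄ X).filter (Sqp 0) := by
        ext p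
        unfold SW SP Cd
        simp only [mem_filter]
        constructor
        · rintro ⟨h2, ⟨n, h3⟩, h4, h5⟩
          refine ⟨⟨⟨h2, n, h3.1⟩, ⟨n, h3⟩, h4⟩, fun l hl hlp => ?_⟩
          have := hlp.pos
          omega
        · rintro ⟨⟨⟨h2, _⟩, h3, h4⟩, h5⟩
          exact ⟨h2, h3, h4, fun h6 => absurd h6 hsf⟩
      rw [e1]
      refine sum_congr rfl fun p hp => ?_
      have hp1 := (mem_filter.1 hp).1
      unfold SW SP at hp1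
      simp only [mem_filter, mem_product, mem_Icc] at hp1
      rw [n0_ne f (by omega), n0_ne g (by omega)]
  exact tt _ key ε hε

end Pool.Agent.W251.EX
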