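import Pool.Agent.W251.EX.TSB

/-!
Project EX (helper251): lower bounds for squarefree `n^2+1`, and the residues modulo `k` of
`(Ω(d), Ω(d'))` for squarefree `d d' = n^2+1`.
-/

set_option autoImplicit false

namespace Pool.Agent.W251.EX

open Finset Filter
open Pool.Agent.W78.EC (SP)

open scoped Classical in
/-- lower bound for the weights of the squarefree `n^2+1` -/
theorem outMS (q a : ℕ) (hq : 1 ≤ q) (hqa : ∀ l : ℕ, l.Prime → l ^ 2 ∣ q → ¬ l ^ 2 ∣ a ^ 2 + 1) :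
    ∃ c : ℝ, 0 < c ∧ ∃ X₀ : ℕ, ∀ X : ℕ, X₀ ≤ X →
    c * X ≤ ∑ n ∈ (range (X + 1)).filter (fun n => n ≡ a [MOD q] ∧ Squarefree (n ^ 2 + 1)),
      (((n ^ 2 + 1).divisors.filter (fun d : ℕ => d ≤ X ∧ (n ^ 2 + 1) / d ≤ X)).card : ℝ) := by
  obtain ⟨c, hc, X₀, h⟩ := spsB q a hq hqa
  refine ⟨c, hc, X₀, fun X hX => (h X hX).trans (le_of_eq ?_)⟩
  rw [← Nat.cast_sum]
  congr 1
  rw [Finset.card_eq_sum_ones]
  simp_rw [Finset.card_eq_sum_ones]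
  rw [Finset.sum_sigma']
  symm
  refine Finset.sum_nbij' (fun x => (x.2, (x.1 ^ 2 + 1) / x.2))
    (fun p => ⟨Nat.sqrt (p.1 * p.2 - 1), p.1⟩) ?_ ?_ ?_ ?_ ?_
  · rintro ⟨n, d⟩ hx
    simp only [mem_sigma, mem_filter, mem_range, Nat.mem_divisors] at hx
    obtain ⟨⟨hn, hna, hnsf⟩, ⟨hd, _⟩, w1, w2⟩ := hx
    have hdd : d * ((n ^ 2 + 1) / d) = n ^ 2 + 1 := Nat.mul_div_cancel' hd
    have hd0 : 0 < d := Nat.pos_of_dvd_of_pos hd (by positivity)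
    have hd1 : 0 < (n ^ 2 + 1) / d := Nat.div_pos (Nat.le_of_dvd (by positivity) hd) hd0
    simp only [SP, mem_filter, mem_product, mem_Icc, hdd]
    exact ⟨⟨⟨⟨hd0, w1⟩, hd1, w2⟩, n, rfl⟩, hnsf, n, rfl, hna⟩
  · rintro ⟨d, d'⟩ hp
    simp only [SP, mem_filter, mem_product, mem_Icc] at hp
    obtain ⟨⟨⟨⟨h5, h6⟩, h7, h8⟩, _⟩, hsf, n, hn, hna⟩ := hp
    have hsq : Nat.sqrt (d * d' - 1) = n := by
      rw [hn, Nat.add_sub_cancel]
      exact Nat.sqrt_eq' n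
    have hdiv : (n ^ 2 + 1) / d = d' := by
      rw [← hn]
      exact Nat.mul_div_cancel_left d' h5
    have hnX : n ≤ X := by
      by_contra h
      push Not at h
      have : d * d' ≤ X * X := Nat.mul_le_mul h6 h8
      nlinarith
    simp only [mem_sigma, mem_filter, mem_range, Nat.mem_divisors, hsq]
    refine ⟨⟨Nat.lt_succ_of_le hnX, hna, hn ▸ hsf⟩, ⟨⟨d', hn.symm⟩, by positivity⟩, h6, ?_⟩
    rw [hdiv]; exact h8
  · rintro ⟨n, d⟩ hx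
    simp only [mem_sigma, mem_filter, mem_range, Nat.mem_divisors] at hx
    obtain ⟨⟨hn, hna⟩, ⟨hd, _⟩, w1, w2⟩ := hx
    have hdd : d * ((n ^ 2 + 1) / d) = n ^ 2 + 1 := Nat.mul_div_cancel' hd
    simp only
    rw [hdd, Nat.add_sub_cancel, Nat.sqrt_eq' n]
  · rintro ⟨d, d'⟩ hp
    simp only [SP, mem_filter, mem_product, mem_Icc] at hp
    obtain ⟨⟨⟨⟨h5, h6⟩, h7, h8⟩, _⟩, hsf, n, hn, hna⟩ := hp
    have hsq : Nat.sqrt (d * d' - 1) = n := by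
      rw [hn, Nat.add_sub_cancel]
      exact Nat.sqrt_eq' n
    have hdiv : (n ^ 2 + 1) / d = d' := by
      rw [← hn]
      exact Nat.mul_div_cancel_left d' h5
    simp only [hsq, hdiv]
  · rintro ⟨n, d⟩ _
    rfl

end Pool.Agent.W251.EX
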