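import Pool.Agent.W251.EX.Out6
import Pool.Agent.W251.EG.PN
import Pool.Agent.W251.EG.Fd4
import Pool.Agent.W347.EG.FINQ

/-!
Project EX (helper251): the integers `n = 2 l m`, `l` prime, `m > 1`, for which `n^2+1` is
squarefree.
-/

set_option autoImplicit false

namespace Pool.Agent.W251.EX

open Finset Filter
open Pool.Agent.W78.EC (SP)

open scoped Classical in
/-- finite unions of sets of logarithmic density zero -/
theorem sum_null {q : ℕ} (hq : 1 ≤ q) {g : ℕ → ℕ → ℝ}
    (h : ∀ r < q, ∀ ε : ℝ, 0 < ε → Tendsto (fun N : ℕ => (∑ X ∈ (Icc 1 N).filter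
      (fun X : ℕ => ε * X < g r X), 1 / (X : ℝ)) / Real.log N) atTop (nhds 0)) (ε : ℝ)
    (hε : 0 < ε) : Tendsto (fun N : ℕ => (∑ X ∈ (Icc 1 N).filter
      (fun X : ℕ => ε * X < ∑ r ∈ range q, g r X), 1 / (X : ℝ)) / Real.log N) atTop (nhds 0) := by
  have hq0 : (0 : ℝ) < q := by exact_mod_cast hq
  have h1 : Tendsto (fun N : ℕ => ∑ r ∈ range q, (∑ X ∈ (Icc 1 N).filter
      (fun X : ℕ => ε / q * X < g r X), 1 / (X : ℝ)) / Real.log N) atTop (nhds 0) := by
    have h2 := tendsto_finsetSum (range q) (fun r hr => h r (mem_range.1 hr) (ε / q) (by positivity))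
    simpa using h2
  refine squeeze_zero' ?_ ?_ h1
  · filter_upwards [eventually_ge_atTop 1] with N hN
    have : (1 : ℝ) ≤ N := by exact_mod_cast hN
    have := Real.log_nonneg this
    positivity
  · filter_upwards [eventually_ge_atTop 1] with N hN
    have h3 : (1 : ℝ) ≤ N := by exact_mod_cast hN
    have h4 := Real.log_nonneg h3
    rw [← sum_div]
    refine div_le_div_of_nonneg_right ?_ h4
    have h5 : ∀ X ∈ Icc 1 N, (if ε * X < ∑ r ∈ range q, g r X then 1 / (X : ℝ) else 0) ≤
        ∑ r ∈ range q, if ε / q * X < g r X then 1 / (X : ℝ) else 0 := by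
      intro X hX
      have hnn : ∀ r ∈ range q, (0 : ℝ) ≤ if ε / q * X < g r X then 1 / (X : ℝ) else 0 := by
        intro r _
        split_ifs
        · positivity
        · exact le_rfl
      split_ifs with hP
      · obtain ⟨r, hr, h7⟩ : ∃ r ∈ range q, ε / q * X < g r X := by
          by_contra hcon
          push Not at hcon
          have h7 := sum_le_sum hcon
          rw [sum_const, card_range, nsmul_eq_mul] at h7
          have h8 : (q : ℝ) * (ε / q * X) = ε * X := by field_simp
          linarith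
        refine le_trans ?_ (single_le_sum hnn hr)
        rw [if_pos h7]
      · exact sum_nonneg hnn
    calc ∑ X ∈ (Icc 1 N).filter (fun X : ℕ => ε * X < ∑ r ∈ range q, g r X), 1 / (X : ℝ)
        = ∑ X ∈ Icc 1 N, if ε * X < ∑ r ∈ range q, g r X then 1 / (X : ℝ) else 0 := sum_filter _ _
      _ ≤ ∑ X ∈ Icc 1 N, ∑ r ∈ range q, if ε / q * X < g r X then 1 / (X : ℝ) else 0 :=
          sum_le_sum h5
      _ = ∑ r ∈ range q, ∑ X ∈ (Icc 1 N).filter (fun X : ℕ => ε / q * X < g r X),
          1 / (X : ℝ) := by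
          rw [sum_comm]
          exact sum_congr rfl fun r _ => (sum_filter _ _).symm

end Pool.Agent.W251.EX
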