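import Pool.Agent.W251.EX.Out7

/-!
Project EX (helper251): the integers `n = 2 l m`, `l` prime, `m > 1`, for which `n^2+1` is
squarefree.
-/

set_option autoImplicit false

namespace Pool.Agent.W251.EX

open Finset Filter
open Pool.Agent.W78.EC (SP)

open scoped Classical in
/-- the pairs `(d, d')` in a window with `d d' = n^2+1` squarefree, `n = q m`, `m > 1` -/
noncomputable def PL (q : ℕ) (s₁ s₂ s₃ s₄ : ℝ) (X : ℕ) : Finset (ℕ × ℕ) :=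
  (Icc 1 X ×ˢ Icc 1 X).filter (fun p : ℕ × ℕ => Squarefree (p.1 * p.2) ∧
    (∃ m : ℕ, 1 < m ∧ p.1 * p.2 = (q * m) ^ 2 + 1) ∧
    (s₁ * X < p.1 ∧ p.1 ≤ s₂ * X ∧ s₃ * X < p.2 ∧ p.2 ≤ s₄ * X))

open scoped Classical in
theorem cardPL (q : ℕ) (hq : 1 ≤ q) (s₁ s₂ s₃ s₄ : ℝ) (X : ℕ) (Q : ℕ × ℕ → Prop) :
    |(((PL q s₁ s₂ s₃ s₄ X).filter Q).card : ℝ) - ∑ r ∈ range q,
      (((SW q 0 r s₁ s₂ s₃ s₄ X).filter (fun p => Squarefree (p.1 * p.2) ∧ Q p)).card : ℝ)| ≤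
      ((q ^ 2 + 1) ^ 2 : ℕ) := by
  obtain ⟨AL, hAL⟩ : ∃ AL : Finset (ℕ × ℕ), AL =
      (Icc 1 X ×ˢ Icc 1 X).filter (fun p : ℕ × ℕ => Squarefree (p.1 * p.2) ∧
    (∃ m : ℕ, p.1 * p.2 = (q * m) ^ 2 + 1) ∧
    (s₁ * X < p.1 ∧ p.1 ≤ s₂ * X ∧ s₃ * X < p.2 ∧ p.2 ≤ s₄ * X)) := ⟨_, rfl⟩
  have h1 : ∑ r ∈ range q,
      (((SW q 0 r s₁ s₂ s₃ s₄ X).filter (fun p => Squarefree (p.1 * p.2) ∧ Q p)).card : ℝ) =
      ((AL.filter Q).card : ℝ) := by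
    have h2 := card_eq_sum_card_fiberwise (s := AL.filter Q) (t := range q)
      (f := fun p : ℕ × ℕ => p.1 % q) (fun p _ => mem_range.2 (Nat.mod_lt _ (by omega)))
    rw [h2]
    push_cast
    refine sum_congr rfl fun r hr => ?_
    congr 2
    ext p
    have hr' : r % q = r := Nat.mod_eq_of_lt (mem_range.1 hr)
    rw [hAL]
    unfold SW SP Cd
    simp only [mem_filter]
    constructor
    · rintro ⟨⟨⟨h3, _⟩, ⟨n, h4, h5, h6⟩, h7⟩, h8, h9⟩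
      obtain ⟨m, hm⟩ := (Nat.modEq_zero_iff_dvd).1 h5
      refine ⟨⟨⟨h3, h8, ⟨m, by rw [h4, hm]⟩, h7⟩, h9⟩, ?_⟩
      have h10 : p.1 % q = r % q := h6
      rw [h10, hr']
    · rintro ⟨⟨⟨h3, h8, ⟨m, hm⟩, h7⟩, h9⟩, h10⟩
      refine ⟨⟨⟨h3, q * m, hm⟩, ⟨q * m, hm, ?_, ?_⟩, h7⟩, h8, h9⟩
      · exact (Nat.modEq_zero_iff_dvd).2 (dvd_mul_right _ _)
      · show p.1 % q = r % q
        rw [h10, hr']
  rw [h1]
  obtain ⟨sm, hsm⟩ : ∃ sm : Finset (ℕ × ℕ), sm = Icc 1 (q ^ 2 + 1) ×ˢ Icc 1 (q ^ 2 + 1) :=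
    ⟨_, rfl⟩
  have hc : sm.card = (q ^ 2 + 1) ^ 2 := by
    rw [hsm, card_product, Nat.card_Icc]
    simp only [Nat.add_sub_cancel]
    ring
  have h2 : (PL q s₁ s₂ s₃ s₄ X).filter Q ⊆ AL.filter Q := by
    intro p hp
    rw [hAL]
    unfold PL at hp
    simp only [mem_filter] at hp ⊢
    obtain ⟨⟨h3, h4, ⟨m, _, hm⟩, h5⟩, h6⟩ := hp
    exact ⟨⟨h3, h4, ⟨m, hm⟩, h5⟩, h6⟩
  have h3 : AL.filter Q ⊆ (PL q s₁ s₂ s₃ s₄ X).filter Q ∪ sm := by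
    intro p hp
    rw [hAL] at hp
    simp only [mem_filter] at hp
    obtain ⟨⟨h3, h4, ⟨m, hm⟩, h5⟩, h6⟩ := hp
    by_cases hm1 : 1 < m
    · refine mem_union_left _ (mem_filter.2 ⟨?_, h6⟩)
      unfold PL
      exact mem_filter.2 ⟨h3, h4, ⟨m, hm1, hm⟩, h5⟩
    · refine mem_union_right _ ?_
      have h7 : p.1 * p.2 ≤ q ^ 2 + 1 := by
        rw [hm]
        have : q * m ≤ q := by
          calc q * m ≤ q * 1 := Nat.mul_le_mul_left _ (by omega)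
            _ = q := mul_one q
        have := Nat.pow_le_pow_left this 2
        omega
      obtain ⟨h8, h9⟩ := mem_product.1 h3
      have h10 := (mem_Icc.1 h8).1
      have h11 := (mem_Icc.1 h9).1
      rw [hsm, mem_product, mem_Icc, mem_Icc]
      refine ⟨⟨h10, ?_⟩, h11, ?_⟩
      · calc p.1 = p.1 * 1 := (mul_one _).symm
          _ ≤ p.1 * p.2 := Nat.mul_le_mul_left _ h11
          _ ≤ _ := h7
      · calc p.2 = 1 * p.2 := (one_mul _).symm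
          _ ≤ p.1 * p.2 := Nat.mul_le_mul_right _ h10
          _ ≤ _ := h7
  have h4 : (((PL q s₁ s₂ s₃ s₄ X).filter Q).card : ℝ) ≤ ((AL.filter Q).card : ℝ) := by
    exact_mod_cast card_le_card h2
  have h5 : ((AL.filter Q).card : ℝ) ≤
      (((PL q s₁ s₂ s₃ s₄ X).filter Q).card : ℝ) + ((q ^ 2 + 1) ^ 2 : ℕ) := by
    have := (card_le_card h3).trans (card_union_le _ _)
    rw [hc] at this
    exact_mod_cast this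
  rw [abs_le]
  constructor <;> linarith

open scoped Classical in
/-- the deviation from equidistribution -/
theorem devPL (k q : ℕ) (hk : 1 ≤ k) (hq : 1 ≤ q) (i j : ℕ) (s₁ s₂ s₃ s₄ : ℝ) (X : ℕ) :
    |(((PL q s₁ s₂ s₃ s₄ X).filter (fun p => ArithmeticFunction.cardFactors p.1 ≡ i [MOD k] ∧
      ArithmeticFunction.cardFactors p.2 ≡ j [MOD k])).card : ℝ) -
      1 / (k : ℝ) ^ 2 * ((PL q s₁ s₂ s₃ s₄ X).card : ℝ)| ≤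
    (∑ r ∈ range q, devQ k q 0 r i j s₁ s₂ s₃ s₄ X) + 2 * ((q ^ 2 + 1) ^ 2 : ℕ) := by
  obtain ⟨x, hx⟩ : ∃ x : ℝ, x = (((PL q s₁ s₂ s₃ s₄ X).filter (fun p =>
      ArithmeticFunction.cardFactors p.1 ≡ i [MOD k] ∧
      ArithmeticFunction.cardFactors p.2 ≡ j [MOD k])).card : ℝ) := ⟨_, rfl⟩
  obtain ⟨y, hy⟩ : ∃ y : ℝ, y = ((PL q s₁ s₂ s₃ s₄ X).card : ℝ) := ⟨_, rfl⟩
  obtain ⟨x', hx'⟩ : ∃ x' : ℝ, x' = ∑ r ∈ range q,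
      (((SW q 0 r s₁ s₂ s₃ s₄ X).filter (fun p => Squarefree (p.1 * p.2) ∧
        ArithmeticFunction.cardFactors p.1 ≡ i [MOD k] ∧
      ArithmeticFunction.cardFactors p.2 ≡ j [MOD k])).card : ℝ) := ⟨_, rfl⟩
  obtain ⟨y', hy'⟩ : ∃ y' : ℝ, y' = ∑ r ∈ range q,
      (((SW q 0 r s₁ s₂ s₃ s₄ X).filter (fun p => Squarefree (p.1 * p.2))).card : ℝ) := ⟨_, rfl⟩
  have h1 : |x - x'| ≤ ((q ^ 2 + 1) ^ 2 : ℕ) := by
    rw [hx, hx']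
    convert cardPL q hq s₁ s₂ s₃ s₄ X (fun p => ArithmeticFunction.cardFactors p.1 ≡ i [MOD k] ∧
      ArithmeticFunction.cardFactors p.2 ≡ j [MOD k])
  have h2 : |y - y'| ≤ ((q ^ 2 + 1) ^ 2 : ℕ) := by
    have h3 := cardPL q hq s₁ s₂ s₃ s₄ X (fun _ => True)
    simp only [and_true] at h3
    rw [Finset.filter_true] at h3
    rw [hy, hy']
    convert h3
  have hgoal : |x - 1 / (k : ℝ) ^ 2 * y| ≤
      (∑ r ∈ range q, devQ k q 0 r i j s₁ s₂ s₃ s₄ X) + 2 * ((q ^ 2 + 1) ^ 2 : ℕ) → _ := fun h => by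
    rw [hx, hy] at h
    convert h
  apply hgoal
  have hk1 : (0 : ℝ) ≤ 1 / (k : ℝ) ^ 2 := by positivity
  have hk2 : 1 / (k : ℝ) ^ 2 ≤ 1 := by
    rw [div_le_one (by positivity)]
    have : (1 : ℝ) ≤ k := by exact_mod_cast hk
    nlinarith
  have h4 : |x' - 1 / (k : ℝ) ^ 2 * y'| ≤ ∑ r ∈ range q, devQ k q 0 r i j s₁ s₂ s₃ s₄ X := by
    rw [hx', hy', mul_sum, ← sum_sub_distrib]
    refine (abs_sum_le_sum_abs _ _).trans (le_of_eq (sum_congr rfl fun r _ => ?_))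
    rfl
  have h5 : (0 : ℝ) ≤ ((q ^ 2 + 1) ^ 2 : ℕ) := Nat.cast_nonneg _
  calc |x - 1 / (k : ℝ) ^ 2 * y|
      = |(x' - 1 / (k : ℝ) ^ 2 * y') + ((x - x') - 1 / (k : ℝ) ^ 2 * (y - y'))| := by
        congr 1; ring
    _ ≤ |x' - 1 / (k : ℝ) ^ 2 * y'| + |(x - x') - 1 / (k : ℝ) ^ 2 * (y - y')| := abs_add_le _ _
    _ ≤ |x' - 1 / (k : ℝ) ^ 2 * y'| + (|x - x'| + |1 / (k : ℝ) ^ 2 * (y - y')|) := by
        gcongr
        exact abs_sub _ _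
    _ ≤ (∑ r ∈ range q, devQ k q 0 r i j s₁ s₂ s₃ s₄ X) +
        (((q ^ 2 + 1) ^ 2 : ℕ) + 1 * ((q ^ 2 + 1) ^ 2 : ℕ)) := by
        rw [abs_mul, abs_of_nonneg hk1]
        gcongr
    _ = _ := by ring

open scoped Classical in
/-- equidistribution -/
theorem outQ (k q : ℕ) (hk : 1 ≤ k) (hq : 1 ≤ q) (i j : ℕ) (s₁ s₂ s₃ s₄ ε : ℝ) (hs₁ : 0 ≤ s₁)
    (hs₁₂ : s₁ < s₂) (hs₂ : s₂ ≤ 1) (hs₃ : 0 ≤ s₃) (hs₃₄ : s₃ < s₄) (hs₄ : s₄ ≤ 1) (hε : 0 < ε) :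
    Tendsto (fun N : ℕ => (∑ X ∈ (Icc 1 N).filter (fun X : ℕ => ε * X <
      |(((PL q s₁ s₂ s₃ s₄ X).filter (fun p => ArithmeticFunction.cardFactors p.1 ≡ i [MOD k] ∧
      ArithmeticFunction.cardFactors p.2 ≡ j [MOD k])).card : ℝ) -
      1 / (k : ℝ) ^ 2 * ((PL q s₁ s₂ s₃ s₄ X).card : ℝ)|), 1 / (X : ℝ)) / Real.log N)
      atTop (nhds 0) := by
  refine Pool.Agent.W347.EG.bad_scales (g := fun X =>
    |(((PL q s₁ s₂ s₃ s₄ X).filter (fun p => ArithmeticFunction.cardFactors p.1 ≡ i [MOD k] ∧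
      ArithmeticFunction.cardFactors p.2 ≡ j [MOD k])).card : ℝ) -
      1 / (k : ℝ) ^ 2 * ((PL q s₁ s₂ s₃ s₄ X).card : ℝ)|)
    (g' := fun X => ∑ r ∈ range q, devQ k q 0 r i j s₁ s₂ s₃ s₄ X) (C := 1) le_rfl
    (K := 2 * ((q ^ 2 + 1) ^ 2 : ℕ)) (fun X => ?_) (fun ε' hε' => ?_) hε
  · simp only [one_mul]
    exact devPL k q hk hq i j s₁ s₂ s₃ s₄ X
  · exact sum_null hq (fun r _ ε'' hε'' => finqB k hk q 0 r hq i j s₁ s₂ s₃ s₄ hs₁ hs₁₂ hs₂ hs₃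
      hs₃₄ hs₄ ε'' hε'') ε' hε'

end Pool.Agent.W251.EX
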