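import Pool.Agent.W251.EX.Out8

/-!
Project EX (helper251): the number of integers `n = 2 l m`, `l` prime, `m > 1`, for which `n^2+1` is
squarefree and `Ω(n^2+1)` lies in a residue class.
-/

set_option autoImplicit false

namespace Pool.Agent.W251.EX

open Finset Filter
open Pool.Agent.W78.EC (SP)

open scoped Classical in
/-- lower bound for the number of pairs -/
theorem lowPL (q : ℕ) (hq : 1 ≤ q) : ∃ c : ℝ, 0 < c ∧ ∃ X₀ : ℕ, ∀ X : ℕ, X₀ ≤ X →
    c * X ≤ ((PL q 0 1 0 1 X).card : ℝ) := by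
  obtain ⟨c, hc, X₀, h⟩ := spsB q 0 hq (fun l hl _ h => by
    have h1 : l ^ 2 ∣ 1 := by simpa using h
    have h2 := Nat.dvd_one.1 h1
    have h3 := hl.two_le
    nlinarith)
  obtain ⟨X₁, hX₁⟩ := exists_nat_ge (2 * (((q ^ 2 + 1) ^ 2 : ℕ) : ℝ) / c)
  refine ⟨c / 2, by positivity, max X₀ X₁, fun X hX => ?_⟩
  have h1 := h X ((le_max_left _ _).trans hX)
  have h2 : 2 * (((q ^ 2 + 1) ^ 2 : ℕ) : ℝ) / c ≤ X :=
    hX₁.trans (by exact_mod_cast (le_max_right _ _).trans hX)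
  rw [div_le_iff₀ hc] at h2
  have h3 : (((SP X).filter (fun p => Squarefree (p.1 * p.2) ∧
      ∃ n : ℕ, p.1 * p.2 = n ^ 2 + 1 ∧ n ≡ 0 [MOD q])).card : ℝ) ≤
      ∑ r ∈ range q, (((SW q 0 r 0 1 0 1 X).filter (fun p => Squarefree (p.1 * p.2))).card : ℝ) := by
    have h4 := card_eq_sum_card_fiberwise (s := (SP X).filter (fun p => Squarefree (p.1 * p.2) ∧
      ∃ n : ℕ, p.1 * p.2 = n ^ 2 + 1 ∧ n ≡ 0 [MOD q])) (t := range q)
      (f := fun p : ℕ × ℕ => p.1 % q) (fun p _ => mem_range.2 (Nat.mod_lt _ (by omega)))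
    rw [h4]
    push_cast
    refine sum_le_sum fun r hr => Nat.cast_le.2 (card_le_card ?_)
    intro p hp
    have hr' : r % q = r := Nat.mod_eq_of_lt (mem_range.1 hr)
    obtain ⟨h5, h6⟩ := mem_filter.1 hp
    obtain ⟨h7, h8, n, h9, h10⟩ := mem_filter.1 h5
    refine mem_filter.2 ⟨?_, h8⟩
    unfold SW
    have h11 : p ∈ Icc 1 X ×ˢ Icc 1 X := by
      unfold SP at h7
      exact (mem_filter.1 h7).1
    obtain ⟨h12, h13⟩ := mem_product.1 h11
    rw [mem_Icc] at h12 h13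
    refine mem_filter.2 ⟨h7, ⟨n, h9, h10, ?_⟩, ?_, ?_, ?_, ?_⟩
    · show p.1 % q = r % q
      rw [h6, hr']
    · rw [zero_mul]; exact_mod_cast h12.1
    · rw [one_mul]; exact_mod_cast h12.2
    · rw [zero_mul]; exact_mod_cast h13.1
    · rw [one_mul]; exact_mod_cast h13.2
  have h4 := cardPL q hq 0 1 0 1 X (fun _ => True)
  simp only [and_true] at h4
  rw [Finset.filter_true] at h4
  have h5 : |((PL q 0 1 0 1 X).card : ℝ) - ∑ r ∈ range q,
      (((SW q 0 r 0 1 0 1 X).filter (fun p => Squarefree (p.1 * p.2))).card : ℝ)| ≤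
      ((q ^ 2 + 1) ^ 2 : ℕ) := by
    convert h4
  have h6 := (abs_le.1 h5).1
  linarith

open scoped Classical in
/-- the number of `n` -/
noncomputable def cn (q k j X : ℕ) : ℕ :=
  ((Icc 1 X).filter (fun n : ℕ => (∃ m : ℕ, 1 < m ∧ n = q * m) ∧ Squarefree (n ^ 2 + 1) ∧
    ArithmeticFunction.cardFactors (n ^ 2 + 1) ≡ j [MOD k])).card

theorem cn_mono (q k j : ℕ) {X Y : ℕ} (h : X ≤ Y) : cn q k j X ≤ cn q k j Y := by
  classical
  unfold cn
  refine card_le_card fun n hn => ?_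
  rw [mem_filter, mem_Icc] at hn ⊢
  exact ⟨⟨hn.1.1, hn.1.2.trans h⟩, hn.2⟩

open scoped Classical in
/-- many `n` in each class, at almost all scales -/
theorem outC (q : ℕ) (hq : 1 ≤ q) (k : ℕ) (hk : 1 ≤ k) (j : ℕ) (ε : ℝ) (hε : 0 < ε) :
    Tendsto (fun Z : ℕ => (∑ X ∈ (Icc 1 Z).filter (fun X : ℕ =>
      (cn q k j X : ℝ) < (X : ℝ) / Real.log X ^ (2 * Real.log 2 + ε)), 1 / (X : ℝ)) / Real.log Z)
      atTop (nhds 0) := by
  obtain ⟨c, hc, X₀, hlow⟩ := lowPL q hq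
  have hk0 : (0 : ℝ) < k := by exact_mod_cast hk
  obtain ⟨ε₀, hε₀⟩ : ∃ ε₀ : ℝ, ε₀ = c / (2 * (k : ℝ) ^ 2) := ⟨_, rfl⟩
  have hε₀p : 0 < ε₀ := by rw [hε₀]; positivity
  obtain ⟨f, χ, hF⟩ := Pool.Agent.W251.EG.fd4
  have hF' : Pool.Agent.W78.EG.Fd ((0 : ℕ) : ℤ) ((1 : ℕ) : ℤ) f χ := by exact_mod_cast hF
  obtain ⟨N₁, hpn⟩ := Pool.Agent.W251.EG.pnG hF' ε₀ ε hε₀p hε
  have h := outQ k q hk hq 0 j 0 1 0 1 ε₀ le_rfl one_pos le_rfl le_rfl one_pos le_rfl hε₀p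
  have key : ∀ X : ℕ, max X₀ N₁ ≤ X →
      (cn q k j X : ℝ) < (X : ℝ) / Real.log X ^ (2 * Real.log 2 + ε) →
      ε₀ * X < |(((PL q 0 1 0 1 X).filter (fun p => ArithmeticFunction.cardFactors p.1 ≡ 0 [MOD k] ∧
      ArithmeticFunction.cardFactors p.2 ≡ j [MOD k])).card : ℝ) -
      1 / (k : ℝ) ^ 2 * ((PL q 0 1 0 1 X).card : ℝ)| := by
    intro X hX hlt
    by_contra hcon
    push Not at hcon
    have h1 := hlow X ((le_max_left _ _).trans hX)
    obtain ⟨S, hS⟩ : ∃ S : Finset (ℕ × ℕ), S = (PL q 0 1 0 1 X).filter (fun p =>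
        ArithmeticFunction.cardFactors p.1 ≡ 0 [MOD k] ∧
        ArithmeticFunction.cardFactors p.2 ≡ j [MOD k]) := ⟨_, rfl⟩
    have h2 : ε₀ * X ≤ (S.card : ℝ) := by
      have h3 := (abs_le.1 hcon).1
      have h4 : 1 / (k : ℝ) ^ 2 * (c * X) ≤ 1 / (k : ℝ) ^ 2 * ((PL q 0 1 0 1 X).card : ℝ) :=
        mul_le_mul_of_nonneg_left h1 (by positivity)
      have h5 : 1 / (k : ℝ) ^ 2 * (c * X) = 2 * (ε₀ * X) := by rw [hε₀]; field_simp
      have h6 : ((S.card : ℕ) : ℝ) = (((PL q 0 1 0 1 X).filter (fun p =>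
        ArithmeticFunction.cardFactors p.1 ≡ 0 [MOD k] ∧
        ArithmeticFunction.cardFactors p.2 ≡ j [MOD k])).card : ℝ) := by rw [hS]
      linarith
    have hmem : ∀ p ∈ S, ∃ m : ℕ, 1 < m ∧ p.1 * p.2 = (q * m) ^ 2 + 1 ∧ Squarefree (p.1 * p.2) ∧
        (1 ≤ p.1 ∧ p.1 ≤ X) ∧ (1 ≤ p.2 ∧ p.2 ≤ X) ∧
        ArithmeticFunction.cardFactors (p.1 * p.2) ≡ j [MOD k] := by
      intro p hp
      rw [hS] at hp
      unfold PL at hp
      simp only [mem_filter, mem_product, mem_Icc] at hp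
      obtain ⟨⟨⟨h7, h8⟩, h9, ⟨m, hm, h10⟩, _⟩, h11, h12⟩ := hp
      refine ⟨m, hm, h10, h9, h7, h8, ?_⟩
      rw [ArithmeticFunction.cardFactors_mul (by omega) (by omega)]
      have := h11.add h12
      rwa [zero_add] at this
    have h3 := hpn X ((le_max_right _ _).trans hX) S (fun p hp => by
      obtain ⟨m, hm, h7, h8, h9, h10, _⟩ := hmem p hp
      refine ⟨?_, h8⟩
      unfold Pool.Agent.W78.EG.SP
      rw [mem_filter, mem_product, mem_Icc, mem_Icc]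
      have hqm : 0 < q * m := Nat.mul_pos (by omega) (by omega)
      refine ⟨⟨h9, h10⟩, q * m, by push_cast; have : (0 : ℤ) < q * m := by exact_mod_cast hqm
                                   linarith, ?_⟩
      push_cast
      have h11 : ((p.1 * p.2 : ℕ) : ℤ) = (((q * m) ^ 2 + 1 : ℕ) : ℤ) := by rw [h7]
      push_cast at h11
      linarith) h2
    have h4 : (S.image (fun p : ℕ × ℕ => Nat.sqrt (p.1 * p.2 - 1))).card ≤ cn q k j X := by
      unfold cn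
      refine card_le_card fun n hn => ?_
      obtain ⟨p, hp, rfl⟩ := mem_image.1 hn
      obtain ⟨m, hm, h7, h8, h9, h10, h11⟩ := hmem p hp
      have h12 : Nat.sqrt (p.1 * p.2 - 1) = q * m := by
        rw [h7, Nat.add_sub_cancel]
        exact Nat.sqrt_eq' _
      have hqm : 0 < q * m := Nat.mul_pos (by omega) (by omega)
      rw [h12, mem_filter, mem_Icc, ← h7]
      refine ⟨⟨hqm, ?_⟩, ⟨m, hm, rfl⟩, h8, h11⟩
      by_contra hcon2
      push Not at hcon2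
      have : p.1 * p.2 ≤ X * X := Nat.mul_le_mul h9.2 h10.2
      nlinarith
    have h5 : ((S.image (fun p : ℕ × ℕ => Nat.sqrt (p.1 * p.2 - 1))).card : ℝ) ≤ cn q k j X := by
      exact_mod_cast h4
    linarith
  -- comparison of the sets
  have hlim : Tendsto (fun Z : ℕ => (∑ X ∈ Icc 1 (max X₀ N₁), 1 / (X : ℝ)) / Real.log Z +
      (∑ X ∈ (Icc 1 Z).filter (fun X : ℕ => ε₀ * X <
      |(((PL q 0 1 0 1 X).filter (fun p => ArithmeticFunction.cardFactors p.1 ≡ 0 [MOD k] ∧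
      ArithmeticFunction.cardFactors p.2 ≡ j [MOD k])).card : ℝ) -
      1 / (k : ℝ) ^ 2 * ((PL q 0 1 0 1 X).card : ℝ)|), 1 / (X : ℝ)) / Real.log Z)
      atTop (nhds 0) := by
    have hl : Tendsto (fun N : ℕ => Real.log N) atTop atTop :=
      Real.tendsto_log_atTop.comp tendsto_natCast_atTop_atTop
    have h1 : Tendsto (fun Z : ℕ => (∑ X ∈ Icc 1 (max X₀ N₁), 1 / (X : ℝ)) / Real.log Z) atTop
      (nhds 0) := hl.const_div_atTop _
    have := h1.add h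
    simpa using this
  refine squeeze_zero' ?_ ?_ hlim
  · filter_upwards [eventually_ge_atTop 1] with Z hZ
    have : (1 : ℝ) ≤ Z := by exact_mod_cast hZ
    have := Real.log_nonneg this
    positivity
  · filter_upwards [eventually_ge_atTop 1] with Z hZ
    have h3 : (1 : ℝ) ≤ Z := by exact_mod_cast hZ
    have h4 := Real.log_nonneg h3
    rw [← add_div]
    refine div_le_div_of_nonneg_right ?_ h4
    have hsub : (Icc 1 Z).filter (fun X : ℕ =>
        (cn q k j X : ℝ) < (X : ℝ) / Real.log X ^ (2 * Real.log 2 + ε)) ⊆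
        Icc 1 (max X₀ N₁) ∪ (Icc 1 Z).filter (fun X : ℕ => ε₀ * X <
      |(((PL q 0 1 0 1 X).filter (fun p => ArithmeticFunction.cardFactors p.1 ≡ 0 [MOD k] ∧
      ArithmeticFunction.cardFactors p.2 ≡ j [MOD k])).card : ℝ) -
      1 / (k : ℝ) ^ 2 * ((PL q 0 1 0 1 X).card : ℝ)|) := by
      intro X hX
      obtain ⟨hX1, hX2⟩ := mem_filter.1 hX
      rcases le_or_gt X (max X₀ N₁) with h5 | h5
      · exact mem_union_left _ (mem_Icc.2 ⟨(mem_Icc.1 hX1).1, h5⟩)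
      · exact mem_union_right _ (mem_filter.2 ⟨hX1, key X h5.le hX2⟩)
    refine (sum_le_sum_of_subset_of_nonneg hsub (fun _ _ _ => by positivity)).trans ?_
    have h6 := sum_union_inter (s₁ := Icc 1 (max X₀ N₁)) (s₂ := (Icc 1 Z).filter (fun X : ℕ =>
      ε₀ * X < |(((PL q 0 1 0 1 X).filter (fun p =>
      ArithmeticFunction.cardFactors p.1 ≡ 0 [MOD k] ∧
      ArithmeticFunction.cardFactors p.2 ≡ j [MOD k])).card : ℝ) -
      1 / (k : ℝ) ^ 2 * ((PL q 0 1 0 1 X).card : ℝ)|)) (f := fun X : ℕ => 1 / (X : ℝ))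
    have h7 : (0 : ℝ) ≤ ∑ X ∈ Icc 1 (max X₀ N₁) ∩ (Icc 1 Z).filter (fun X : ℕ =>
      ε₀ * X < |(((PL q 0 1 0 1 X).filter (fun p =>
      ArithmeticFunction.cardFactors p.1 ≡ 0 [MOD k] ∧
      ArithmeticFunction.cardFactors p.2 ≡ j [MOD k])).card : ℝ) -
      1 / (k : ℝ) ^ 2 * ((PL q 0 1 0 1 X).card : ℝ)|), 1 / (X : ℝ) :=
      sum_nonneg (fun _ _ => by positivity)
    linarith

end Pool.Agent.W251.EX
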