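import Pool.Agent.W251.EX.Defs4
import Pool.Agent.W78.GA.Defs

/-!
Project EX (helper251), part 4: few pairs with large square divisors.
-/

set_option autoImplicit false

namespace Pool.Agent.W251.EX

open Finset Filter
open Pool.Agent.W78.GA (nm dedge ip NN S_SQB Qd)
open Pool.Agent.W78.EC (Gi SP)

theorem tailB (h1 : S_SQB 0 1) (h2 : Pool.Agent.W78.EC.S_CORR) : S_TAIL := by
  classical
  intro δ hδ
  obtain ⟨S, X₁, h⟩ := h1 δ hδ
  refine ⟨S, max 1 ⌈X₁⌉₊, fun X hX => ?_⟩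
  have hX1 : (1 : ℝ) ≤ X := by exact_mod_cast (le_max_left _ _).trans hX
  have hX2 : X₁ ≤ X := (Nat.le_ceil _).trans (by exact_mod_cast (le_max_right _ _).trans hX)
  have e1 := h2 X (fun a b => if ∃ q : ℕ, S < q ∧ q ^ 2 ∣ a * b then 1 else 0) hX1
  rw [Nat.floor_natCast] at e1
  have e2 : ∑ e ∈ (dedge 0 1 (X : ℝ)).filter (fun e => 0 < ip e.1 e.2),
      (if ∃ q : ℕ, S < q ∧ q ^ 2 ∣ nm e.1 * nm e.2 then (1 : ℝ) else 0) ≤ δ * X := by
    refine le_trans ?_ (h X hX2)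
    rw [← sum_filter, sum_const, nsmul_eq_mul, mul_one]
    norm_cast
    refine card_le_card ?_
    intro e he
    simp only [mem_filter] at he ⊢
    exact ⟨he.1.1, he.2⟩
  have e3 : (((SP X).filter (fun p => Sqp S p ∧ ¬ Squarefree (p.1 * p.2))).card : ℝ) ≤
      ∑ p ∈ (SP X).filter (fun p => p ≠ (1, 1)),
        (if ∃ q : ℕ, S < q ∧ q ^ 2 ∣ p.1 * p.2 then (1 : ℝ) else 0) := by
    rw [← sum_filter, sum_const, nsmul_eq_mul, mul_one]
    norm_cast
    refine card_le_card ?_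
    intro p hp
    simp only [mem_filter] at hp ⊢
    obtain ⟨hp1, hp2, hp3⟩ := hp
    refine ⟨⟨hp1, ?_⟩, ?_⟩
    · rintro rfl
      exact hp3 (by simp)
    · rw [Nat.squarefree_iff_prime_squarefree] at hp3
      push Not at hp3
      obtain ⟨l, hl, hld⟩ := hp3
      refine ⟨l, ?_, by rw [pow_two]; exact hld⟩
      by_contra hlS
      exact hp2 l (by omega) hl (by rw [pow_two]; exact hld)
  have e4 : 0 ≤ ∑ p ∈ (SP X).filter (fun p => p ≠ (1, 1)),
        (if ∃ q : ℕ, S < q ∧ q ^ 2 ∣ p.1 * p.2 then (1 : ℝ) else 0) :=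
    sum_nonneg fun _ _ => by split_ifs <;> norm_num
  linarith

end Pool.Agent.W251.EX
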