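import Pool.Agent.W251.EX.Out4
import Pool.Agent.W251.EX.Tail
import Pool.Agent.W78.GA.All
import Pool.Agent.W290.EX.Finq
import Pool.Agent.W935.EX.SPSA

/-!
Project EX (helper251): assembly, part D: squarefree `d d'`.
-/

set_option autoImplicit false

namespace Pool.Agent.W251.EX

theorem tsB : S_TS := Pool.Agent.W67.EX.ts twA
  (tailB (Pool.Agent.W78.GA.sqb (by norm_num)) Pool.Agent.W305.EC.corr)

theorem finqB : S_FINQ := Pool.Agent.W290.EX.finq tsB pntxA

theorem spsB : S_SPS := Pool.Agent.W935.EX.sps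

end Pool.Agent.W251.EX
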